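import Pool.Agent.H8.MC.Alg

/-!
# Massey systems and the maps from the universal algebra
-/

set_option autoImplicit false

noncomputable section

namespace H8.MC

variable {k : Type} [Field k]

/-- Massey systems of length `p - 1` in a dg algebra: elements `h n`, `0 < n < p`, of degree `1`
with `D (h n) = Σ_{i + j = n} h i * h j` -/
structure Massey (A : NC.ZDGA k) (p : ℕ) where
  h : Lt p → A.V
  gr : ∀ n, h n ∈ A.gr 1
  D : ∀ n, A.D (h n) = ∑ x ∈ prs p n.1, A.mul (h x.1) (h x.2)

variable {A : NC.ZDGA k} {p : ℕ} (M : Massey A p)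

/-- the product of the letters of a word -/
def Massey.ev : List (Lt p) → A.V
  | [] => A.one
  | n :: u => A.mul (M.h n) (ev u)

theorem Massey.ev_append (u v : List (Lt p)) : M.ev (u ++ v) = A.mul (M.ev u) (M.ev v) := by
  induction u with
  | nil => rw [List.nil_append, Massey.ev, A.one_mul']
  | cons n u ih => rw [List.cons_append, Massey.ev, ih, Massey.ev, A.mul_assoc']

theorem Massey.ev_gr (u : List (Lt p)) : M.ev u ∈ A.gr (u.length : ℤ) := by
  induction u with
  | nil => exact A.one_gr
  | cons n u ih =>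
    have := A.mul_gr 1 _ _ (M.gr n) _ ih
    rw [Massey.ev]
    rwa [List.length_cons, Nat.cast_add, Nat.cast_one, add_comm]

/-- the linear map on the universal algebra -/
def Massey.lin : FW p k →ₗ[k] A.V := Finsupp.lsum k fun u => LinearMap.toSpanSingleton k A.V (M.ev u)

theorem Massey.lin_single (u : List (Lt p)) (a : k) :
    M.lin (Finsupp.single u a) = a • M.ev u := by
  simp [Massey.lin]

theorem Massey.lin_mul (x y : FW p k) : M.lin (mulW k x y) = A.mul (M.lin x) (M.lin y) := by
  induction x using Finsupp.induction_linear with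
  | zero => simp
  | add a b ha hb => simp only [map_add, LinearMap.add_apply, ha, hb]
  | single u a =>
    induction y using Finsupp.induction_linear with
    | zero => simp
    | add a b ha hb => simp only [map_add, ha, hb]
    | single v b =>
      rw [mulW_single, M.lin_single, M.lin_single, M.lin_single, M.ev_append, map_smul, map_smul,
        LinearMap.smul_apply, smul_smul, mul_comm a b]

theorem Massey.E_h (n : Lt p) : A.E (M.h n) = - M.h n := by
  have := A.P_gr 1 _ (M.gr n)
  rw [if_neg (by decide)] at this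
  rw [NC.SD.E_apply, this]
  simp

theorem Massey.lin_dW (u : List (Lt p)) : M.lin (dW k u) = A.D (M.ev u) := by
  induction u with
  | nil =>
    rw [dW, map_zero, Massey.ev]
    have h1 := A.D_mul A.one A.one
    have h2 : A.E A.one = A.one := by
      rw [NC.SD.E_apply, A.P_one, add_sub_cancel_right]
    rw [A.one_mul', h2, A.one_mul', A.mul_one'] at h1
    exact (left_eq_add.mp h1).symm
  | cons n u ih =>
    have h0 : M.ev [n] = M.h n := by rw [Massey.ev, Massey.ev, A.mul_one']
    have h1 : M.ev (n :: u) = A.mul (M.h n) (M.ev u) := rfl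
    rw [dW, map_sub, map_sum, M.lin_mul, ih, M.lin_single, one_smul, h0, h1, A.D_mul, M.E_h,
      map_neg, LinearMap.neg_apply, M.D, map_sum, LinearMap.sum_apply, sub_eq_add_neg]
    congr 1
    apply Finset.sum_congr rfl
    intro x _
    rw [M.lin_single, one_smul, Massey.ev, Massey.ev, A.mul_assoc']

theorem Massey.lin_D (x : FW p k) : M.lin (dF k x) = A.D (M.lin x) := by
  induction x using Finsupp.induction_linear with
  | zero => simp
  | add a b ha hb => rw [map_add, map_add, ha, hb, map_add, map_add]
  | single u a => rw [dF_single, map_smul, M.lin_dW, M.lin_single, map_smul]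

/-- the map from the universal algebra -/
def Massey.hom : NC.ZHom (C k p) A where
  f := M.lin
  mul := M.lin_mul
  D := M.lin_D
  gr := fun i a ha => by
    refine grF_induction k (P := fun a => M.lin a ∈ A.gr i) (by simp) ?_ ?_ a ha
    · intro x y hx hy
      rw [map_add]
      exact Submodule.add_mem _ hx hy
    · intro u a hu
      rw [M.lin_single, ← hu]
      exact Submodule.smul_mem _ _ (M.ev_gr u)

theorem Massey.hom_letter (n : Lt p) : M.hom.f (Finsupp.single [n] 1) = M.h n := by
  change M.lin _ = _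
  rw [M.lin_single, one_smul, Massey.ev, Massey.ev, A.mul_one']

/-- the sums over pairs of letters as sums over numbers -/
theorem sum_prs {V : Type} [AddCommMonoid V] (n : ℕ) (hn : n ≤ p) (f : ℕ → ℕ → V) :
    ∑ x ∈ prs p n, f x.1.1 x.2.1 = ∑ i ∈ Finset.Ioo 0 n, f i (n - i) := by
  refine Finset.sum_bij (fun x _ => x.1.1) ?_ ?_ ?_ ?_
  · intro x hx
    have h1 := mem_prs.mp hx
    have h2 := x.1.2
    have h3 := x.2.2
    rw [Finset.mem_Ioo]
    omega
  · intro x hx y hy h
    have h1 := mem_prs.mp hx
    have h2 := mem_prs.mp hy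
    exact Prod.ext (Subtype.ext h) (Subtype.ext (by omega))
  · intro i hi
    rw [Finset.mem_Ioo] at hi
    exact ⟨(⟨i, by omega⟩, ⟨n - i, by omega⟩), mem_prs.mpr (by dsimp only; omega), rfl⟩
  · intro x hx
    have h1 := mem_prs.mp hx
    rw [show n - x.1.1 = x.2.1 by omega]

/-- Massey systems indexed by natural numbers -/
def Massey.ofNat (h : ℕ → A.V) (gr : ∀ n, 0 < n → n < p → h n ∈ A.gr 1)
    (D : ∀ n, 0 < n → n < p → A.D (h n) = ∑ i ∈ Finset.Ioo 0 n, A.mul (h i) (h (n - i))) :
    Massey A p where
  h := fun n => h n.1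
  gr := fun n => gr n.1 n.2.1 n.2.2
  D := fun n => by
    rw [D n.1 n.2.1 n.2.2, ← sum_prs n.1 n.2.2.le (fun i j => A.mul (h i) (h j))]

theorem Massey.ofNat_sum (h : ℕ → A.V) (gr : ∀ n, 0 < n → n < p → h n ∈ A.gr 1)
    (D : ∀ n, 0 < n → n < p → A.D (h n) = ∑ i ∈ Finset.Ioo 0 n, A.mul (h i) (h (n - i))) :
    ∑ x ∈ prs p p, A.mul ((Massey.ofNat h gr D).h x.1) ((Massey.ofNat h gr D).h x.2) =
      ∑ i ∈ Finset.Ioo 0 p, A.mul (h i) (h (p - i)) :=
  sum_prs p le_rfl (fun i j => A.mul (h i) (h j))

end H8.MC
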