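import Pool.Agent.H8.MC.Ident
import Pool.Agent.H8.MC.Map

/-!
# Massey systems and the Bockstein operator (block B)

For a Massey system `h n` (`0 < n < p`) in a dg algebra `A` the class of the periodic cycle with
column `0` the one letter word `Σ_{i + j = p} h i * h j` is in the image of the Bockstein operator.
-/

set_option autoImplicit false

noncomputable section

namespace H8.MC

open NC NC.BK

variable {p : ℕ} {k R : Type} [Field k] [CommRing R] (c : Car p k R)

theorem Yc_Per (hp : 0 < p) : Yc p R ∈ (sc p R).Per (-1) := by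
  refine ⟨fun q w hw => ?_, 0, fun q hq => ?_⟩
  · by_cases hq : q = 0
    · subst hq
      rw [Yc, if_pos rfl, Finsupp.neg_apply, neg_ne_zero, Finsupp.finsetSum_apply] at hw
      obtain ⟨u, hu, hu'⟩ := Finset.exists_ne_zero_of_sum_ne_zero hw
      rw [Finsupp.smul_apply, Finsupp.single_apply] at hu'
      split_ifs at hu' with h1
      · rw [← h1, sdg_io]
        refine ⟨?_, by norm_num⟩
        intro h2
        have h3 : u = [] := by
          cases u with
          | nil => rfl
          | cons a u => simp at h2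
        rw [mem_cmp, h3, wt_nil] at hu
        omega
      · exact absurd (smul_zero _) hu'
    · rw [Yc, if_neg hq] at hw
      exact absurd rfl hw
  · rw [Yc, if_neg (by omega)]

theorem Pc_Per (hp : 0 < p) : Pc p R ∈ (sc p R).Per (-1 - 1) := by
  refine ⟨fun q w hw => ?_, 0, fun q hq => ?_⟩
  · by_cases hq : q = 0
    · subst hq
      rw [Pc, if_pos rfl, Finsupp.finsetSum_apply] at hw
      obtain ⟨x, hx, hx'⟩ := Finset.exists_ne_zero_of_sum_ne_zero hw
      rw [mk2, Finsupp.single_apply] at hx'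
      split_ifs at hx' with h1
      · rw [← h1]
        refine ⟨by simp, ?_⟩
        rw [sdg]
        simp only [io_nil, List.nil_append, List.map_cons, List.map_nil, List.sum_cons,
          List.sum_nil]
        change - ((([x.1, x.2] : List (Lt p)).length : ℤ) - 1 + 0) - 1 = -1 - 1 - 0
        simp
      · exact absurd rfl hx'
    · by_cases hq' : q = -1
      · subst hq'
        rw [Pc, if_neg (by decide), if_pos rfl, Finsupp.neg_apply, neg_ne_zero,
          Finsupp.finsetSum_apply] at hw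
        obtain ⟨u, hu, hu'⟩ := Finset.exists_ne_zero_of_sum_ne_zero hw
        rw [Finsupp.single_apply] at hu'
        split_ifs at hu' with h1
        · rw [← h1, sdg_io]
          refine ⟨?_, by norm_num⟩
          intro h2
          have h3 : u = [] := by
            cases u with
            | nil => rfl
            | cons a u => simp at h2
          rw [mem_cmp, h3, wt_nil] at hu
          omega
        · exact absurd rfl hu'
      · rw [Pc, if_neg hq, if_neg hq'] at hw
        exact absurd rfl hw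
  · rw [Pc, if_neg (by omega), if_neg (by omega)]

theorem red_p {I : Type} (x : I →₀ R) : red c ((p : R) • x) = 0 := by
  ext i
  rw [red, Finsupp.mapRange_apply, Finsupp.smul_apply, smul_eq_mul, map_mul, c.flat _ c.pp,
    zero_mul, Finsupp.zero_apply]

/-- from words in the basis to words in the universal algebra -/
def tw : W k (List (Lt p)) →ₗ[k] Wd k (FW p k) (FW p k) := (lft p c).toWd

theorem tw_one (w : List (Lt p)) :
    tw c (Finsupp.single [w] (1 : k)) = Wd.nil (Finsupp.single w (1 : k) : FW p k) := by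
  change lin (lft p c).word (Finsupp.single [w] (1 : k)) = _
  refine (Finsupp.linearCombination_single k (1 : k) ([w] : List (List (Lt p)))).trans ?_
  rw [one_smul]
  rfl

theorem tw_P : tw c (red c (Pc p R 0)) =
    Wd.nil (∑ x ∈ prs p p, (Finsupp.single [x.1, x.2] (1 : k) : FW p k)) := by
  rw [Pc, if_pos rfl, red_sum, map_sum, map_sum]
  apply Finset.sum_congr rfl
  intro x _
  have h2 : red c (mk2 R [] x []) = Finsupp.single [[x.1, x.2]] (1 : k) := by
    rw [mk2, red_single, map_one]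
    rfl
  rw [h2, tw_one]

theorem toA_P_zero : (lft p c).toA (Pc p R) 0 =
    (Wd.nil (∑ x ∈ prs p p, (Finsupp.single [x.1, x.2] (1 : k) : FW p k)) :
      Wd k (C k p).V (C k p).V) := tw_P c

theorem lin_pairs {A : ZDGA k} (M : Massey A p) :
    M.lin (∑ x ∈ prs p p, (Finsupp.single [x.1, x.2] (1 : k) : FW p k)) =
      ∑ x ∈ prs p p, A.mul (M.h x.1) (M.h x.2) := by
  rw [map_sum]
  apply Finset.sum_congr rfl
  intro x _
  rw [M.lin_single, one_smul, Massey.ev, Massey.ev, Massey.ev, A.mul_one']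

theorem toA_P_pos (q : ℤ) (hq : 0 < q) : (lft p c).toA (Pc p R) q = 0 := by
  change (lft p c).toWd (red c (Pc p R q)) = _
  rw [Pc, if_neg (by omega), if_neg (by omega)]
  have h : red c (0 : List (lft p c).B →₀ R) = 0 := by
    ext i
    simp [red]
  exact (congrArg _ h).trans (map_zero _)

/-- block B -/
theorem B_out (hp : 0 < p) (Bk : Bock c)
    (hZ : ∀ (m : ℤ) (X : ℤ → W R (lft p c).B), X ∈ (lft p c).sc.Per m →
      (∀ q, red c ((lft p c).sc.D X q) = 0) → (lft p c).toA X ∈ (C k p).cyc.Z Set.univ m)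
    (A : ZDGA k) (M : Massey A p) :
    ∃ (y : A.HP (-1)) (P : ℤ → A.cyc.V) (hP : P ∈ A.cyc.Z Set.univ (-1 - 1)),
      Bk.β A (-1) y = A.cyc.cls P hP ∧
      P 0 = (Wd.nil (∑ x ∈ prs p p, A.mul (M.h x.1) (M.h x.2)) : Wd k A.V A.V) ∧
      ∀ q, 0 < q → P q = 0 := by
  have hx : (lft p c).toA (Yc p R) ∈ (C k p).cyc.Z Set.univ (-1) := by
    refine hZ (-1) (Yc p R) (Yc_Per hp) fun q => ?_
    have h := congrFun (D_Y p R hp) q
    change red c ((sc p R).D (Yc p R) q) = 0
    rw [h]
    exact red_p c _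
  have hy : (lft p c).toA (Pc p R) ∈ (C k p).cyc.Z Set.univ (-1 - 1) := by
    refine hZ (-1 - 1) (Pc p R) (Pc_Per hp) fun q => ?_
    have h := congrFun (D_P p R) q
    change red c ((sc p R).D (Pc p R) q) = 0
    rw [h]
    ext i
    simp [red]
  refine ⟨M.hom.HP (-1) ((C k p).cyc.cls _ hx), M.hom.cyc.fm ((lft p c).toA (Pc p R)),
    M.hom.cyc.Z hy, ?_, ?_, ?_⟩
  · rw [Bk.nat, Bk.strict (C k p) (lft p c) (sc_strict p R) (-1) (Yc p R) (Pc p R) (Yc_Per hp)
      (Pc_Per hp) (D_Y p R hp) hx hy]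
    rfl
  · change Wd.map M.hom.f M.hom.f ((lft p c).toA (Pc p R) 0) = _
    have h1 : M.hom.f (∑ x ∈ prs p p, (Finsupp.single [x.1, x.2] (1 : k) : FW p k)) =
        ∑ x ∈ prs p p, A.mul (M.h x.1) (M.h x.2) := lin_pairs M
    rw [toA_P_zero, Wd.map_nil, h1]
  · intro q hq
    change Wd.map M.hom.f M.hom.f ((lft p c).toA (Pc p R) q) = 0
    rw [toA_P_pos c q hq]
    exact map_zero _

/-- block B, numbers as indices -/
theorem B_out' (hp : 0 < p) (Bk : Bock c)
    (hZ : ∀ (m : ℤ) (X : ℤ → W R (lft p c).B), X ∈ (lft p c).sc.Per m →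
      (∀ q, red c ((lft p c).sc.D X q) = 0) → (lft p c).toA X ∈ (C k p).cyc.Z Set.univ m)
    (A : ZDGA k) (h : ℕ → A.V) (gr : ∀ n, 0 < n → n < p → h n ∈ A.gr 1)
    (D : ∀ n, 0 < n → n < p → A.D (h n) = ∑ i ∈ Finset.Ioo 0 n, A.mul (h i) (h (n - i))) :
    ∃ (y : A.HP (-1)) (P : ℤ → A.cyc.V) (hP : P ∈ A.cyc.Z Set.univ (-1 - 1)),
      Bk.β A (-1) y = A.cyc.cls P hP ∧
      P 0 = (Wd.nil (∑ i ∈ Finset.Ioo 0 p, A.mul (h i) (h (p - i))) : Wd k A.V A.V) ∧
      ∀ q, 0 < q → P q = 0 := by
  obtain ⟨y, P, hP, h1, h2, h3⟩ := B_out c hp Bk hZ A (Massey.ofNat h gr D)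
  refine ⟨y, P, hP, h1, ?_, h3⟩
  rw [h2, Massey.ofNat_sum h gr D]

end H8.MC
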