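import Pool.Agent.H8.MC.Free
import Pool.Agent.H94.NC.GDefs

/-!
# The universal algebra of a Massey system as a graded dg algebra over a field

`H8.MC.C p k` is the free algebra on letters `e_n`, `0 < n < p`, of degree `1`, with
`d e_n = Σ_{i + j = n} e_i e_j`.
-/

set_option autoImplicit false

noncomputable section

namespace H8.MC

/-- the decomposition of a free module by a degree function on the basis -/
theorem internal_supported {k : Type} [Field k] {ι : Type} (deg : ι → ℤ) :
    DirectSum.IsInternal (fun i : ℤ => Finsupp.supported k k {u : ι | deg u = i}) := by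
  rw [DirectSum.isInternal_submodule_iff_iSupIndep_and_iSup_eq_top]
  constructor
  · intro i
    rw [disjoint_iff]
    have h1 : (⨆ (j : ℤ) (_ : j ≠ i), Finsupp.supported k k {u : ι | deg u = j}) ≤
        Finsupp.supported k k {u : ι | deg u ≠ i} := by
      refine iSup₂_le fun j hj => Finsupp.supported_mono ?_
      intro u hu
      simp only [Set.mem_ofPred_eq] at hu ⊢
      omega
    refine le_antisymm (le_trans (inf_le_inf_left _ h1) ?_) bot_le
    rw [← disjoint_iff_inf_le, Finsupp.disjoint_supported_supported_iff]
    rw [Set.disjoint_iff]
    rintro u ⟨h2, h3⟩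
    exact h3 h2
  · rw [← Finsupp.supported_iUnion, eq_top_iff, ← Finsupp.supported_univ]
    refine Finsupp.supported_mono ?_
    intro u _
    simp

variable {p : ℕ} (k : Type) [Field k]

/-- the degree -/
def grF (i : ℤ) : Submodule k (FW p k) :=
  Finsupp.supported k k {u : List (Lt p) | (u.length : ℤ) = i}

theorem single_mem_grF (u : List (Lt p)) (a : k) :
    Finsupp.single u a ∈ grF k (u.length : ℤ) :=
  Finsupp.single_mem_supported k a rfl

/-- the projection on the even part -/
def PF : FW p k →ₗ[k] FW p k :=
  Finsupp.lsum k fun u => if Even u.length then Finsupp.lsingle u else 0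

theorem PF_single (u : List (Lt p)) (a : k) :
    PF k (Finsupp.single u a) = if Even u.length then Finsupp.single u a else 0 := by
  rw [PF, Finsupp.lsum_single]
  split_ifs <;> simp

/-- induction over the homogeneous elements -/
theorem grF_induction {i : ℤ} {P : FW p k → Prop} (h0 : P 0)
    (hadd : ∀ x y, P x → P y → P (x + y))
    (hs : ∀ (u : List (Lt p)) (a : k), (u.length : ℤ) = i → P (Finsupp.single u a)) :
    ∀ x ∈ grF k i, P x := by
  intro x hx
  rw [grF, Finsupp.mem_supported] at hx
  rw [← Finsupp.sum_single x, Finsupp.sum]
  refine Finset.sum_induction _ P hadd h0 fun u hu => ?_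
  exact hs u _ (hx hu)

theorem grF_P (i : ℤ) (v : FW p k) (hv : v ∈ grF k i) : PF k v = if Even i then v else 0 := by
  refine grF_induction k (P := fun v => PF k v = if Even i then v else 0) (by simp) ?_ ?_ v hv
  · intro x y hx hy
    rw [map_add, hx, hy]
    split_ifs <;> simp
  · intro u a hu
    rw [PF_single, ← hu]
    simp only [Int.even_coe_nat]

theorem dW_mem (u : List (Lt p)) : dW k u ∈ grF k ((u.length : ℤ) + 1) := by
  induction u with
  | nil => exact Submodule.zero_mem _
  | cons n u ih =>
    rw [dW]
    refine Submodule.sub_mem _ (Submodule.sum_mem _ fun x _ => ?_) ?_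
    · have := single_mem_grF k (x.1 :: x.2 :: u) (1 : k)
      simpa using this
    · refine grF_induction k (P := fun v => mulW k (Finsupp.single [n] 1) v ∈
        grF k (((n :: u).length : ℤ) + 1)) (by simp) ?_ ?_ _ ih
      · intro x y hx hy
        rw [map_add]
        exact Submodule.add_mem _ hx hy
      · intro v a hv
        rw [mulW_single]
        have := single_mem_grF k ([n] ++ v) (1 * a)
        rw [List.length_append] at this
        have h2 : ((([n] : List (Lt p)).length + v.length : ℕ) : ℤ) =
            ((n :: u).length : ℤ) + 1 := by
          simp only [List.length_cons, List.length_nil, Nat.cast_add, hv]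
          push_cast
          ring
        rwa [h2] at this

theorem dF_mem (i : ℤ) (v : FW p k) (hv : v ∈ grF k i) : dF k v ∈ grF k (i + 1) := by
  refine grF_induction k (P := fun v => dF k v ∈ grF k (i + 1)) (by simp) ?_ ?_ v hv
  · intro x y hx hy
    rw [map_add]
    exact Submodule.add_mem _ hx hy
  · intro u a hu
    rw [dF_single, ← hu]
    exact Submodule.smul_mem _ _ (dW_mem k u)

theorem mulW_mem (i j : ℤ) (v : FW p k) (hv : v ∈ grF k i) (w : FW p k) (hw : w ∈ grF k j) :
    mulW k v w ∈ grF k (i + j) := by
  refine grF_induction k (P := fun v => mulW k v w ∈ grF k (i + j)) (by simp) ?_ ?_ v hv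
  · intro x y hx hy
    rw [map_add, LinearMap.add_apply]
    exact Submodule.add_mem _ hx hy
  · intro u a hu
    refine grF_induction k (P := fun w => mulW k (Finsupp.single u a) w ∈ grF k (i + j))
      (by simp) ?_ ?_ w hw
    · intro x y hx hy
      rw [map_add]
      exact Submodule.add_mem _ hx hy
    · intro v b hv
      rw [mulW_single]
      have := single_mem_grF k (u ++ v) (a * b)
      rwa [List.length_append, Nat.cast_add, hu, hv] at this

theorem PF_single' (u : List (Lt p)) (a : k) :
    PF k (Finsupp.single u a) + PF k (Finsupp.single u a) - Finsupp.single u a =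
      Finsupp.single u ((-1) ^ u.length * a) := by
  rw [PF_single]
  split_ifs with h
  · rw [h.neg_one_pow, one_mul, add_sub_cancel_right]
  · rw [(Nat.not_even_iff_odd.mp h).neg_one_pow, neg_one_mul, Finsupp.single_neg]
    simp

/-- the universal algebra of a Massey system -/
def C (p : ℕ) : NC.ZDGA k where
  V := FW p k
  D := dF k
  P := PF k
  DD := dF_dF k
  PP := fun v => by
    induction v using Finsupp.induction_linear with
    | zero => simp
    | add a b ha hb => rw [map_add, map_add, ha, hb]
    | single u a =>
      rw [PF_single]
      split_ifs with h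
      · rw [PF_single, if_pos h]
      · rw [map_zero]
  DP := fun v => by
    induction v using Finsupp.induction_linear with
    | zero => simp
    | add a b ha hb => simp only [map_add, ha, hb]; abel
    | single u a =>
      rw [PF_single, grF_P k _ _ (dF_mem k _ _ (single_mem_grF k u a))]
      have h1 : Even ((u.length : ℤ) + 1) ↔ ¬ Even u.length := by
        rw [Int.even_add_one, Int.even_coe_nat]
      by_cases h : Even u.length
      · rw [if_pos h, if_neg (fun h' => h1.mp h' h), sub_zero]
      · rw [if_neg h, if_pos (h1.mpr h), map_zero, sub_self]
  mul := mulW k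
  one := Finsupp.single [] 1
  one_mul' := one_mulW k
  mul_one' := mulW_one k
  mul_assoc' := mulW_assoc k
  P_one := by rw [PF_single, if_pos (by simp)]
  P_mul := fun a b => by
    induction a using Finsupp.induction_linear with
    | zero => simp
    | add a c ha hc =>
      simp only [map_add, LinearMap.add_apply, ha, hc, add_sub_add_comm]
      abel
    | single u a =>
      induction b using Finsupp.induction_linear with
      | zero => simp
      | add b c hb hc =>
        simp only [map_add, hb, hc, add_sub_add_comm]
        abel
      | single v b =>
        rw [mulW_single, PF_single, PF_single, PF_single]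
        by_cases h1 : Even u.length <;> by_cases h2 : Even v.length <;>
          simp [h1, h2, mulW_single, List.length_append, Nat.even_add]
  D_mul := fun a b => by
    induction a using Finsupp.induction_linear with
    | zero => simp
    | add a c ha hc =>
      simp only [map_add, LinearMap.add_apply, ha, hc]
      abel
    | single u a =>
      have h1 : (Finsupp.single u a : FW p k) = a • Finsupp.single u 1 := by
        rw [Finsupp.smul_single, smul_eq_mul, mul_one]
      change dF k (mulW k (Finsupp.single u a) b) = mulW k (dF k (Finsupp.single u a)) b +
        mulW k (PF k (Finsupp.single u a) + PF k (Finsupp.single u a) - Finsupp.single u a)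
          (dF k b)
      rw [PF_single', dF_single]
      have h2 : (Finsupp.single u ((-1) ^ u.length * a) : FW p k) =
          ((-1 : k) ^ u.length * a) • Finsupp.single u 1 := by
        rw [Finsupp.smul_single, smul_eq_mul, mul_one]
      rw [h1, h2]
      simp only [map_smul, LinearMap.smul_apply]
      rw [dF_mul, smul_add, smul_smul, mul_comm]
  gr := grF k
  internal := internal_supported _
  P_gr := grF_P k
  D_gr := dF_mem k
  mul_gr := fun i j a ha b hb => mulW_mem k i j a ha b hb
  one_gr := by
    have := single_mem_grF k ([] : List (Lt p)) (1 : k)
    simpa using this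

end H8.MC
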