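import Pool.Agent.H94.BK.Defs
import Pool.Agent.H94.PB.Dga
import Pool.Agent.H94.PB.OpsB

/-!
# Words in a basis and words of a dg algebra
-/

set_option autoImplicit false

noncomputable section

namespace H8.Brd

open NC NC.BK NC.Wd

variable {p : ℕ} {k R : Type} [Field k] [CommRing R] {c : Car p k R} {A : ZDGA k} (L : Lft c A)

/-- the structure constants over `k` -/
def sck : Sc k L.B where
  deg := L.sc.deg
  d := fun a => red c (L.sc.d a)
  m := fun a b => red c (L.sc.m a b)
  d_deg := fun a b h => L.sc.d_deg a b fun h' => h (by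
    rw [red, Finsupp.mapRange_apply, h', map_zero])
  m_deg := fun a b d h => L.sc.m_deg a b d fun h' => h (by
    rw [red, Finsupp.mapRange_apply, h', map_zero])

/-- the word with degrees -/
def ow (w : List L.B) : List (ℤ × A.V) := w.map (fun b => (L.sc.deg b, L.e b))

theorem ow_mem (w : List L.B) : ∀ x ∈ ow L w, x.2 ∈ (fun i => (A.gr i : Set A.V)) x.1 := by
  intro x hx
  obtain ⟨b, _, rfl⟩ := List.mem_map.mp hx
  exact L.e_gr b

theorem ow_ne {w : List L.B} (h : w ≠ []) : ow L w ≠ [] := by
  intro h'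
  exact h (List.map_eq_nil_iff.mp h')

theorem thw_ow (w : List L.B) : KPub.thw (LinearMap.id : A.V →ₗ[k] A.V) (ow L w) = L.word w := by
  cases w with
  | nil => rfl
  | cons b w =>
    change ((w.map (fun b => (L.sc.deg b, L.e b))).foldl
      (fun a y => snoc a ((LinearMap.id : A.V →ₗ[k] A.V) y.2)) (nil (L.e b)) : Wd k A.V A.V) =
      w.foldl (fun x a => snoc x (L.e a)) (nil (L.e b))
    rw [List.foldl_map]
    rfl

theorem thw_lab {V : Type} [AddCommGroup V] [Module k V] (w w' : List (ℤ × V))
    (h : w.map Prod.snd = w'.map Prod.snd) :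
    KPub.thw (LinearMap.id : V →ₗ[k] V) w = KPub.thw LinearMap.id w' := by
  have key : ∀ w : List (ℤ × V), KPub.thw (LinearMap.id : V →ₗ[k] V) w =
      match w.map Prod.snd with
      | [] => 0
      | x :: u => u.foldl (fun a y => snoc a y) (nil x) := by
    intro w
    cases w with
    | nil => rfl
    | cons x w =>
      change w.foldl (fun a y => snoc a ((LinearMap.id : V →ₗ[k] V) y.2)) (nil x.2) =
        (w.map Prod.snd).foldl (fun a y => snoc a y) (nil x.2)
      rw [List.foldl_map]
      rfl
  rw [key, key, h]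

theorem thw_smul_add (u v : List (ℤ × A.V)) (i : ℤ) (a b : A.V) (r : k) :
    KPub.thw (LinearMap.id : A.V →ₗ[k] A.V) (u ++ (i, a + r • b) :: v) =
      KPub.thw LinearMap.id (u ++ (i, a) :: v) +
        r • KPub.thw LinearMap.id (u ++ (i, b) :: v) := by
  have h := KPub.th_Rel (LinearMap.id : A.V →ₗ[k] A.V)
    (t := MonoidAlgebra.single (u ++ (i, a + r • b) :: v) 1 -
      MonoidAlgebra.single (u ++ (i, a) :: v) 1 - MonoidAlgebra.single (u ++ (i, b) :: v) r)
    (Submodule.subset_span ⟨u, v, i, a, b, r, rfl⟩)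
  rw [map_sub, map_sub, KPub.th_single, KPub.th_single, KPub.th_single, one_smul, one_smul,
    sub_sub, sub_eq_zero] at h
  exact h

/-- a word with a variable letter -/
def mid (u v : List (ℤ × A.V)) : A.V →ₗ[k] Wd k A.V A.V where
  toFun a := KPub.thw LinearMap.id (u ++ ((0 : ℤ), a) :: v)
  map_add' a b := by
    have h := thw_smul_add u v 0 a b 1
    rwa [one_smul, one_smul] at h
  map_smul' r a := by
    have h := thw_smul_add u v 0 0 a r
    have h0 := thw_smul_add u v 0 0 0 1
    rw [one_smul, add_zero, one_smul, left_eq_add] at h0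
    rw [zero_add, h0, zero_add] at h
    exact h

theorem thw_mid (u v : List (ℤ × A.V)) (i : ℤ) (a : A.V) :
    KPub.thw (LinearMap.id : A.V →ₗ[k] A.V) (u ++ (i, a) :: v) = mid u v a :=
  thw_lab _ _ (by simp)

theorem toWd_single (w : List L.B) (r : k) : L.toWd (Finsupp.single w r) = r • L.word w :=
  Finsupp.linearCombination_single k r w

theorem toWd_ins (u v : List L.B) (x : L.B →₀ k) :
    L.toWd (ins u v x) = mid (ow L u) (ow L v) (Finsupp.linearCombination k L.e x) := by
  induction x using Finsupp.induction_linear with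
  | zero => simp
  | add a b ha hb => rw [map_add, map_add, ha, hb, map_add, map_add]
  | single b r =>
    rw [ins, Finsupp.lmapDomain_apply, Finsupp.mapDomain_single, toWd_single,
      Finsupp.linearCombination_single, map_smul, ← thw_ow]
    congr 1
    have : ow L (u ++ b :: v) = ow L u ++ (L.sc.deg b, L.e b) :: ow L v := by
      simp [ow]
    rw [this, thw_mid]

theorem lc_d (a : L.B) : Finsupp.linearCombination k L.e ((sck L).d a) = A.D (L.e a) := by
  change Finsupp.linearCombination k L.e (red c (L.sc.d a)) = _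
  rw [← L.e_D]
  exact L.e.linearCombination_repr _

theorem lc_m (a b : L.B) :
    Finsupp.linearCombination k L.e ((sck L).m a b) = A.mul (L.e a) (L.e b) := by
  change Finsupp.linearCombination k L.e (red c (L.sc.m a b)) = _
  rw [← L.e_mul]
  exact L.e.linearCombination_repr _

theorem sg_eq (m n : ℤ) (h : Even (m - n)) : BK.sg k m = (-1 : k) ^ n := by
  rw [BK.sg, (Int.negOnePow_eq_iff m n).mpr h]
  rcases Int.even_or_odd n with h1 | h1
  · rw [Int.negOnePow_even n h1, h1.neg_one_zpow]
    simp
  · rw [Int.negOnePow_odd n h1, h1.neg_one_zpow]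
    simp

theorem sdg_sdeg (w : List L.B) :
    sdg L.sc.deg w = KPub.sdeg A.V (ow L w) - 2 * w.length := by
  induction w with
  | nil => simp [sdg, KPub.sdeg, ow]
  | cons b w ih =>
    simp only [sdg, KPub.sdeg, ow, List.map_cons, List.sum_cons, List.length_cons] at ih ⊢
    push_cast
    linarith

theorem ow_length (w : List L.B) : (ow L w).length = w.length := List.length_map _

theorem ow_take (w : List L.B) (i : ℕ) : (ow L w).take i = ow L (w.take i) := by
  simp [ow, List.map_take]

theorem ow_drop (w : List L.B) (i : ℕ) : (ow L w).drop i = ow L (w.drop i) := by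
  simp [ow, List.map_drop]

theorem ow_getD (w : List L.B) (i : ℕ) (h : i < w.length) :
    (ow L w).getD i 0 = (L.sc.deg w[i], L.e w[i]) := by
  simp [ow, List.getD_eq_getElem?_getD, h]

theorem sign_take (w : List L.B) :
    BK.sg k (1 * sdg (sck L).deg w) = (-1 : k) ^ KPub.sdeg A.V (ow L w) := by
  refine sg_eq _ _ ?_
  change Even (1 * sdg L.sc.deg w - _)
  rw [sdg_sdeg]
  exact ⟨- w.length, by ring⟩

theorem blk1_eq (w : List L.B) (i : ℕ) (h : i < w.length) :
    L.toWd (blk (sck L).deg 1 1 (sck L).c1 i w) =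
      ((-1 : k) ^ KPub.sdeg A.V ((ow L w).take i)) • KPub.thw LinearMap.id
        ((ow L w).take i ++ KPub.dL A.V (fun _ a => A.D a) ((ow L w).getD i 0) ::
          (ow L w).drop (i + 1)) := by
  rw [blk, map_smul, toWd_ins, sign_take, ow_take, ow_drop, ow_getD L w i h]
  congr 1
  have h1 : (w.drop i).take 1 = [w[i]] := by
    rw [List.drop_eq_getElem_cons h]
    rfl
  rw [h1]
  change mid _ _ (Finsupp.linearCombination k L.e ((sck L).d w[i])) = _
  rw [lc_d, KPub.dL, thw_mid]

theorem blk2_eq (w : List L.B) (i : ℕ) (h : i + 1 < w.length) :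
    L.toWd (blk (sck L).deg 1 2 (sck L).c2 i w) =
      ((-1 : k) ^ (KPub.sdeg A.V ((ow L w).take i) + ((ow L w).getD i 0).1)) •
        KPub.thw LinearMap.id ((ow L w).take i ++
          KPub.mulL A.V (fun a b => a * b) ((ow L w).getD i 0) ((ow L w).getD (i + 1) 0) ::
            (ow L w).drop (i + 2)) := by
  rw [blk, map_smul, toWd_ins, sign_take, ow_take, ow_drop, ow_getD L w i (by omega),
    ow_getD L w (i + 1) h]
  have h1 : (w.drop i).take 2 = [w[i], w[i + 1]] := by
    rw [List.drop_eq_getElem_cons (by omega), List.drop_eq_getElem_cons h]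
    rfl
  rw [h1]
  change _ • mid _ _ (Finsupp.linearCombination k L.e
    (BK.sg k (L.sc.deg w[i]) • (sck L).m w[i] w[i + 1])) = _
  rw [map_smul, map_smul, lc_m, KPub.mulL, thw_mid, smul_smul, sg_eq (L.sc.deg w[i])
    (L.sc.deg w[i]) (by simp), ← zpow_add₀ (by norm_num)]
  rfl

theorem blk2_short {S : Type} [CommRing S] (K : Sc S L.B) (w : List L.B) (i : ℕ)
    (h : ¬ i + 1 < w.length) : blk K.deg 1 2 K.c2 i w = 0 := by
  have h1 : ((w.drop i).take 2).length < 2 := by
    rw [List.length_take, List.length_drop]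
    omega
  have h2 : K.c2 ((w.drop i).take 2) = 0 := by
    generalize (w.drop i).take 2 = w at h1
    match w, h1 with
    | [], _ => rfl
    | [_], _ => rfl
    | _ :: _ :: _, h => simp at h
  rw [blk, h2, map_zero, smul_zero]

/-- `b'` -/
theorem toWd_opB' {w : List L.B} (hw : w ≠ []) :
    L.toWd ((sck L).opB' (Finsupp.single w 1)) = bp A.toDGA (L.word w) := by
  have h := ((KPub.presA A).th_opB' (ow_ne L hw) (ow_mem L w)).2
  have h1 : KPub.thw (KPub.presA A).ρ (ow L w) = L.word w := thw_ow L w
  rw [h1] at h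
  rw [← h, Sc.opB', lin, Finsupp.linearCombination_single, one_smul, map_sum, KPub.opB', map_add,
    map_sum, map_sum, ow_length]
  simp only [map_add, Finset.sum_add_distrib]
  congr 1
  · apply Finset.sum_congr rfl
    intro i hi
    rw [blk1_eq L w i (Finset.mem_range.mp hi), KPub.th_single]
    rfl
  · obtain ⟨n, hn⟩ : ∃ n, w.length = n + 1 :=
      Nat.exists_eq_succ_of_ne_zero (fun h => hw (List.length_eq_zero_iff.1 h))
    rw [hn, Finset.sum_range_succ, blk2_short L (sck L) w n (by omega), map_zero, add_zero,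
      Nat.add_sub_cancel]
    apply Finset.sum_congr rfl
    intro i hi
    rw [Finset.mem_range] at hi
    rw [blk2_eq L w i (by omega), KPub.th_single]
    rfl

theorem sdeg_append (u v : List (ℤ × A.V)) :
    KPub.sdeg A.V (u ++ v) = KPub.sdeg A.V u + KPub.sdeg A.V v := by
  simp [KPub.sdeg]

theorem toWd_rotw (w : List L.B) (i : ℕ) :
    L.toWd (BK.rotw k (sck L).deg i w) = KPub.th LinearMap.id (KPub.rotw k A.V i (ow L w)) := by
  rw [BK.rotw, toWd_single, KPub.rotw, KPub.th_single, ow_take, ow_drop]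
  have h1 : ow L (w.drop i) ++ ow L (w.take i) = ow L (w.drop i ++ w.take i) := by simp [ow]
  rw [h1, thw_ow]
  congr 1
  refine sg_eq _ _ ?_
  change Even (sdg L.sc.deg (w.take i) * sdg L.sc.deg (w.drop i) - _)
  rw [sdg_sdeg, sdg_sdeg]
  refine ⟨- (w.take i).length * KPub.sdeg A.V (ow L (w.drop i)) -
    KPub.sdeg A.V (ow L (w.take i)) * (w.drop i).length +
    2 * (w.take i).length * (w.drop i).length, by ring⟩

/-- `N` -/
theorem toWd_nn {w : List L.B} (hw : w ≠ []) :
    L.toWd (nn k (sck L).deg (Finsupp.single w 1)) = nrm A.toSD (L.word w) := by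
  have h := ((KPub.presA A).th_opN (ow_ne L hw) (ow_mem L w)).2
  have h1 : KPub.thw (KPub.presA A).ρ (ow L w) = L.word w := thw_ow L w
  rw [h1] at h
  rw [← h, nn, lin, Finsupp.linearCombination_single, one_smul, map_sum, KPub.opN, map_sum,
    ow_length]
  exact Finset.sum_congr rfl fun i _ => toWd_rotw L w i

/-- `t` -/
theorem toWd_tt {w : List L.B} (hw : w ≠ []) :
    L.toWd (tt k (sck L).deg (Finsupp.single w 1)) = rot A.toSD (L.word w) := by
  have h := ((KPub.presA A).th_opT (ow_ne L hw) (ow_mem L w)).2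
  have h1 : KPub.thw (KPub.presA A).ρ (ow L w) = L.word w := thw_ow L w
  rw [h1, KPub.opT, map_sub, KPub.th_single, one_smul, h1, sub_right_inj] at h
  rw [← h, tt, lin, Finsupp.linearCombination_single, one_smul, ow_length]
  exact toWd_rotw L w _

/-- `b` -/
theorem toWd_opB {w : List L.B} (hw : w ≠ []) :
    L.toWd ((sck L).opB (Finsupp.single w 1)) = bb A.toDGA (L.word w) := by
  have h := ((KPub.presA A).th_opB (ow_ne L hw) (ow_mem L w)).2
  have h' := ((KPub.presA A).th_opB' (ow_ne L hw) (ow_mem L w)).2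
  have h1 : KPub.thw (KPub.presA A).ρ (ow L w) = L.word w := thw_ow L w
  rw [h1] at h h'
  rw [← h, KPub.opB, map_add, h', Sc.opB, LinearMap.add_apply, map_add, toWd_opB' L hw]
  congr 1
  rw [LinearMap.comp_apply, tt, lin, lin, Finsupp.linearCombination_single, one_smul, BK.rotw,
    Finsupp.linearCombination_single, map_smul]
  rcases List.eq_nil_or_concat w with h0 | ⟨w', x, h0⟩
  · exact absurd h0 hw
  rw [List.concat_eq_append] at h0
  by_cases h3 : w' = []
  · subst h3
    subst h0
    rw [blk2_short L (sck L) _ 0 (by simp), map_zero, smul_zero, if_pos (by simp [ow]), map_zero]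
  · obtain ⟨y, w'', rfl⟩ := List.exists_cons_of_ne_nil h3
    subst h0
    have e1 : (y :: w'' ++ [x]).length - 1 = (y :: w'').length := by simp
    have e2 : ow L (y :: w'' ++ [x]) = ow L (y :: w'') ++ [(L.sc.deg x, L.e x)] := by simp [ow]
    have e3 : ow L (y :: w'') = (L.sc.deg y, L.e y) :: ow L w'' := rfl
    rw [e1, List.take_left, List.drop_left, e2]
    have f1 : (ow L (y :: w'') ++ [(L.sc.deg x, L.e x)]).getLastD 0 = (L.sc.deg x, L.e x) :=
      List.getLastD_concat
    have f2 : (ow L (y :: w'') ++ [(L.sc.deg x, L.e x)]).dropLast = ow L (y :: w'') :=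
      List.dropLast_concat
    have f3 : (ow L (y :: w'') ++ [(L.sc.deg x, L.e x)]).tail.dropLast = ow L w'' :=
      List.dropLast_concat
    have f4 : (ow L (y :: w'') ++ [(L.sc.deg x, L.e x)]).headD 0 = (L.sc.deg y, L.e y) := rfl
    have f5 : ¬ (ow L (y :: w'') ++ [(L.sc.deg x, L.e x)]).length < 2 := by simp [e3]
    rw [if_neg f5, f1, f2, f3, f4, KPub.th_single, blk2_eq L ([x] ++ y :: w'') 0 (by simp)]
    change _ • (((-1 : k) ^ (KPub.sdeg A.V [] + L.sc.deg x)) • KPub.thw LinearMap.id
      (KPub.mulL A.V (fun a b => a * b) (L.sc.deg x, L.e x) (L.sc.deg y, L.e y) :: ow L w'')) = _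
    rw [smul_smul]
    congr 1
    rw [sg_eq _ (KPub.sdeg A.V (ow L (y :: w'')) * (L.sc.deg x + 1)), ← zpow_add₀ (by norm_num)]
    · congr 1
      simp only [KPub.sdeg, List.map_nil, List.sum_nil]
      ring
    · change Even (sdg L.sc.deg (y :: w'') * sdg L.sc.deg [x] - _)
      have g1 : sdg L.sc.deg [x] = L.sc.deg x + 1 - 2 := by
        simp only [sdg, List.map_cons, List.map_nil, List.sum_cons, List.sum_nil]
        ring
      rw [sdg_sdeg, g1]
      refine ⟨- KPub.sdeg A.V (ow L (y :: w'')) - (y :: w'').length * (L.sc.deg x + 1) +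
        2 * (y :: w'').length, by ring⟩

end H8.Brd
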