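import Pool.Agent.H8.MC.Free

/-!
# Sums over the compositions of a number with parts smaller than `p`

The combinatorial identities behind `D Y = p P`; they are stated for arbitrary functions on words
and on words with one marked pair of letters.
-/

set_option autoImplicit false

noncomputable section

namespace H8.MC

variable {p : ℕ}

/-- the weight of a word -/
def wt (u : List (Lt p)) : ℕ := (u.map Subtype.val).sum

@[simp] theorem wt_nil : wt ([] : List (Lt p)) = 0 := rfl

@[simp] theorem wt_cons (a : Lt p) (u : List (Lt p)) : wt (a :: u) = a.1 + wt u := by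
  simp [wt]

@[simp] theorem wt_append (u v : List (Lt p)) : wt (u ++ v) = wt u + wt v := by
  simp [wt]

theorem length_le_wt (u : List (Lt p)) : u.length ≤ wt u := by
  induction u with
  | nil => simp
  | cons a u ih =>
    have := a.2
    rw [List.length_cons, wt_cons]
    omega

theorem wt_eq_zero {u : List (Lt p)} (h : wt u = 0) : u = [] := by
  have := length_le_wt u
  exact List.length_eq_zero_iff.mp (by omega)

theorem finite_cmp (n : ℕ) : {u : List (Lt p) | wt u = n}.Finite :=
  (List.finite_length_le (Lt p) n).subset fun u hu => by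
    have := length_le_wt u
    simp only [Set.mem_ofPred_eq] at hu ⊢
    omega

variable (p) in
/-- the compositions of `n` with parts smaller than `p` -/
def cmp (n : ℕ) : Finset (List (Lt p)) := (finite_cmp n).toFinset

@[simp] theorem mem_cmp {n : ℕ} {u : List (Lt p)} : u ∈ cmp p n ↔ wt u = n := by
  simp [cmp]

theorem finite_Q1 (n : ℕ) :
    {q : List (Lt p) × Lt p × List (Lt p) | wt q.1 + q.2.1.1 + wt q.2.2 = n}.Finite := by
  have h1 : ∀ m, {u : List (Lt p) | wt u ≤ m}.Finite := fun m =>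
    (List.finite_length_le (Lt p) m).subset fun u hu => by
      have := length_le_wt u
      simp only [Set.mem_ofPred_eq] at hu ⊢
      omega
  refine ((h1 n).prod ((Set.finite_univ (α := Lt p)).prod (h1 n))).subset ?_
  rintro ⟨s, a, v⟩ h
  simp only [Set.mem_ofPred_eq] at h
  simp only [Set.mem_prod, Set.mem_ofPred_eq, Set.mem_univ, true_and]
  omega

variable (p) in
/-- the compositions with a marked part -/
def Q1 (n : ℕ) : Finset (List (Lt p) × Lt p × List (Lt p)) := (finite_Q1 n).toFinset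

theorem mem_Q1 {n : ℕ} {q : List (Lt p) × Lt p × List (Lt p)} :
    q ∈ Q1 p n ↔ wt q.1 + q.2.1.1 + wt q.2.2 = n := by
  simp [Q1]

theorem finite_Q2 (n : ℕ) :
    {q : List (Lt p) × (Lt p × Lt p) × List (Lt p) |
      wt q.1 + (q.2.1.1.1 + q.2.1.2.1) + wt q.2.2 = n}.Finite := by
  have h1 : ∀ m, {u : List (Lt p) | wt u ≤ m}.Finite := fun m =>
    (List.finite_length_le (Lt p) m).subset fun u hu => by
      have := length_le_wt u
      simp only [Set.mem_ofPred_eq] at hu ⊢
      omega
  refine ((h1 n).prod ((Set.finite_univ (α := Lt p × Lt p)).prod (h1 n))).subset ?_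
  rintro ⟨s, a, v⟩ h
  simp only [Set.mem_ofPred_eq] at h
  simp only [Set.mem_prod, Set.mem_ofPred_eq, Set.mem_univ, true_and]
  omega

variable (p) in
/-- the compositions with a marked pair of consecutive parts -/
def Q2 (n : ℕ) : Finset (List (Lt p) × (Lt p × Lt p) × List (Lt p)) := (finite_Q2 n).toFinset

theorem mem_Q2 {n : ℕ} {q : List (Lt p) × (Lt p × Lt p) × List (Lt p)} :
    q ∈ Q2 p n ↔ wt q.1 + (q.2.1.1.1 + q.2.1.2.1) + wt q.2.2 = n := by
  simp [Q2]

variable {M : Type} [AddCommGroup M]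

/-- sums over the letters of the compositions -/
theorem sum_Q1 (n : ℕ) (G : List (Lt p) → ℕ → M) (F : List (Lt p) → Lt p → List (Lt p) → M)
    (h : ∀ s a v, G (s ++ a :: v) s.length = F s a v) :
    ∑ u ∈ cmp p n, ∑ i ∈ Finset.range u.length, G u i =
      ∑ q ∈ Q1 p n, F q.1 q.2.1 q.2.2 := by
  rw [Finset.sum_sigma']
  symm
  refine Finset.sum_bij (fun q _ => ⟨q.1 ++ q.2.1 :: q.2.2, q.1.length⟩) ?_ ?_ ?_ ?_
  · rintro ⟨s, a, v⟩ hq
    rw [mem_Q1] at hq
    simp only [Finset.mem_sigma, mem_cmp, wt_append, wt_cons, Finset.mem_range,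
      List.length_append, List.length_cons]
    dsimp only at hq
    constructor <;> omega
  · rintro ⟨s, a, v⟩ _ ⟨s', a', v'⟩ _ h1
    simp only [Sigma.mk.injEq, heq_eq_eq] at h1
    obtain ⟨h2, h3⟩ := List.append_inj h1.1 h1.2
    simp only [List.cons.injEq] at h3
    rw [h2, h3.1, h3.2]
  · rintro ⟨u, i⟩ hu
    simp only [Finset.mem_sigma, mem_cmp, Finset.mem_range] at hu
    have h1 : u.take i ++ u[i] :: u.drop (i + 1) = u := by
      rw [← List.drop_eq_getElem_cons, List.take_append_drop]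
    refine ⟨(u.take i, u[i], u.drop (i + 1)), ?_, ?_⟩
    · rw [mem_Q1]
      have h2 := hu.1
      rw [← h1, wt_append, wt_cons] at h2
      dsimp only
      omega
    · dsimp only
      rw [h1, List.length_take_of_le hu.2.le]
  · rintro ⟨s, a, v⟩ _
    exact (h s a v).symm

/-- sums over the pairs of consecutive letters of the compositions -/
theorem sum_Q2 (n : ℕ) (G : List (Lt p) → ℕ → M)
    (F : List (Lt p) → Lt p × Lt p → List (Lt p) → M)
    (h : ∀ s a b v, G (s ++ a :: b :: v) s.length = F s (a, b) v) :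
    ∑ u ∈ cmp p n, ∑ i ∈ Finset.range (u.length - 1), G u i =
      ∑ q ∈ Q2 p n, F q.1 q.2.1 q.2.2 := by
  rw [Finset.sum_sigma']
  symm
  refine Finset.sum_bij (fun q _ => ⟨q.1 ++ q.2.1.1 :: q.2.1.2 :: q.2.2, q.1.length⟩) ?_ ?_ ?_ ?_
  · rintro ⟨s, ⟨a, b⟩, v⟩ hq
    rw [mem_Q2] at hq
    simp only [Finset.mem_sigma, mem_cmp, wt_append, wt_cons, Finset.mem_range,
      List.length_append, List.length_cons]
    dsimp only at hq
    constructor <;> omega
  · rintro ⟨s, ⟨a, b⟩, v⟩ _ ⟨s', ⟨a', b'⟩, v'⟩ _ h1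
    simp only [Sigma.mk.injEq, heq_eq_eq] at h1
    obtain ⟨h2, h3⟩ := List.append_inj h1.1 h1.2
    simp only [List.cons.injEq] at h3
    rw [h2, h3.1, h3.2.1, h3.2.2]
  · rintro ⟨u, i⟩ hu
    simp only [Finset.mem_sigma, mem_cmp, Finset.mem_range] at hu
    have hi : i < u.length := by omega
    have hi' : i + 1 < u.length := by omega
    have h1 : u.take i ++ u[i] :: u[i + 1] :: u.drop (i + 1 + 1) = u := by
      rw [← List.drop_eq_getElem_cons, ← List.drop_eq_getElem_cons, List.take_append_drop]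
    refine ⟨(u.take i, (u[i], u[i + 1]), u.drop (i + 1 + 1)), ?_, ?_⟩
    · rw [mem_Q2]
      have h2 := hu.1
      rw [← h1, wt_append, wt_cons, wt_cons] at h2
      dsimp only
      omega
    · dsimp only
      rw [h1, List.length_take_of_le hi.le]
  · rintro ⟨s, ⟨a, b⟩, v⟩ _
    exact (h s a b v).symm

/-- sums over the decompositions of the marked part -/
theorem sum_Q1_prs (n : ℕ) (F : ℕ → List (Lt p) → Lt p × Lt p → List (Lt p) → M) :
    ∑ q ∈ Q1 p n, ∑ x ∈ prs p q.2.1.1, F q.2.1.1 q.1 x q.2.2 =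
      ∑ q ∈ (Q2 p n).filter (fun q => q.2.1.1.1 + q.2.1.2.1 < p),
        F (q.2.1.1.1 + q.2.1.2.1) q.1 q.2.1 q.2.2 := by
  rw [Finset.sum_sigma']
  refine Finset.sum_bij (fun z _ => (z.1.1, z.2, z.1.2.2)) ?_ ?_ ?_ ?_
  · rintro ⟨⟨s, a, v⟩, ⟨b, c⟩⟩ hz
    simp only [Finset.mem_sigma, mem_Q1, mem_prs] at hz
    simp only [Finset.mem_filter, mem_Q2]
    have := a.2
    constructor <;> omega
  · rintro ⟨⟨s, a, v⟩, ⟨b, c⟩⟩ hz ⟨⟨s', a', v'⟩, ⟨b', c'⟩⟩ hz' h
    simp only [Finset.mem_sigma, mem_Q1, mem_prs] at hz hz'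
    simp only [Prod.mk.injEq] at h
    obtain ⟨rfl, ⟨rfl, rfl⟩, rfl⟩ := h
    have h2 : a = a' := Subtype.ext (by omega)
    rw [h2]
  · rintro ⟨s, ⟨b, c⟩, v⟩ hq
    simp only [Finset.mem_filter, mem_Q2] at hq
    have hb := b.2
    refine ⟨⟨(s, ⟨b.1 + c.1, by omega⟩, v), (b, c)⟩, ?_, rfl⟩
    simp only [Finset.mem_sigma, mem_Q1, mem_prs]
    constructor
    · omega
    · trivial
  · rintro ⟨⟨s, a, v⟩, ⟨b, c⟩⟩ hz
    simp only [Finset.mem_sigma, mem_Q1, mem_prs] at hz
    dsimp only
    rw [hz.2]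

/-- the marked pair alone -/
def emb : Lt p × Lt p ↪ List (Lt p) × (Lt p × Lt p) × List (Lt p) :=
  ⟨fun x => ([], x, []), fun x y h => by simpa using h⟩

/-- the marked pairs whose sum is not a letter -/
theorem Q2_not_lt : (Q2 p p).filter (fun q => ¬ (q.2.1.1.1 + q.2.1.2.1 < p)) =
    (prs p p).map emb := by
  ext ⟨s, ⟨a, b⟩, v⟩
  simp only [Finset.mem_filter, mem_Q2, Finset.mem_map, mem_prs]
  constructor
  · rintro ⟨h1, h2⟩
    have h3 : wt s = 0 := by omega
    have h4 : wt v = 0 := by omega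
    refine ⟨(a, b), by dsimp only; omega, ?_⟩
    rw [wt_eq_zero h3, wt_eq_zero h4]
    rfl
  · rintro ⟨⟨a', b'⟩, h1, h2⟩
    change (([], (a', b'), []) : List (Lt p) × (Lt p × Lt p) × List (Lt p)) = _ at h2
    simp only [Prod.mk.injEq] at h2
    obtain ⟨rfl, ⟨rfl, rfl⟩, rfl⟩ := h2
    dsimp only at h1
    simp only [wt_nil]
    omega

/-- the value of the first letter -/
def hd : List (Lt p) → ℕ
  | [] => 0
  | a :: _ => a.1

theorem hd_append (s : List (Lt p)) (a : Lt p) (v : List (Lt p)) :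
    hd (s ++ a :: v) = if s = [] then a.1 else hd s := by
  cases s with
  | nil => simp [hd]
  | cons b s => simp [hd]

/-- `b' W` -/
theorem sum_bp (g : List (Lt p) → Lt p × Lt p → List (Lt p) → M)
    (G1 G2 : List (Lt p) → ℕ → M)
    (h1 : ∀ s a v, G1 (s ++ a :: v) s.length = ∑ x ∈ prs p a.1, g s x v)
    (h2 : ∀ s a b v, G2 (s ++ a :: b :: v) s.length = g s (a, b) v) :
    ∑ u ∈ cmp p p, (∑ i ∈ Finset.range u.length, G1 u i -
      ∑ i ∈ Finset.range (u.length - 1), G2 u i) = - ∑ x ∈ prs p p, g [] x [] := by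
  rw [Finset.sum_sub_distrib, sum_Q1 p G1 (fun s a v => ∑ x ∈ prs p a.1, g s x v) h1,
    sum_Q2 p G2 (fun s x v => g s x v) h2,
    sum_Q1_prs p (fun _ s x v => g s x v),
    ← Finset.sum_filter_add_sum_filter_not (Q2 p p) (fun q => q.2.1.1.1 + q.2.1.2.1 < p)
      (fun q => g q.1 q.2.1 q.2.2), Q2_not_lt, Finset.sum_map, sub_add_cancel_left]
  rfl

/-- `b' Y` -/
theorem sum_bp_hd (g : List (Lt p) → Lt p × Lt p → List (Lt p) → M)
    (G1 G2 : List (Lt p) → ℕ → M)
    (h1 : ∀ s a v, G1 (s ++ a :: v) s.length = ∑ x ∈ prs p a.1, g s x v)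
    (h2 : ∀ s a b v, G2 (s ++ a :: b :: v) s.length = g s (a, b) v) :
    ∑ u ∈ cmp p p, hd u • (∑ i ∈ Finset.range u.length, G1 u i -
      ∑ i ∈ Finset.range (u.length - 1), G2 u i) =
      ∑ q ∈ (Q2 p p).filter (fun q => q.1 = []), q.2.1.2.1 • g [] q.2.1 q.2.2 -
        p • ∑ x ∈ prs p p, g [] x [] := by
  simp only [smul_sub, Finset.smul_sum]
  have e1 : ∀ s a v, (fun (u : List (Lt p)) i => hd u • G1 u i) (s ++ a :: v) s.length =
      ∑ x ∈ prs p a.1, (if s = [] then a.1 else hd s) • g s x v := by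
    intro s a v
    dsimp only
    rw [h1, Finset.smul_sum, hd_append]
  have e2 : ∀ s a b v, (fun (u : List (Lt p)) i => hd u • G2 u i) (s ++ a :: b :: v) s.length =
      (fun (s : List (Lt p)) (x : Lt p × Lt p) v => (if s = [] then x.1.1 else hd s) • g s x v)
        s (a, b) v := by
    intro s a b v
    dsimp only
    rw [h2, hd_append]
  rw [Finset.sum_sub_distrib,
    sum_Q1 p (fun (u : List (Lt p)) i => hd u • G1 u i)
      (fun s a v => ∑ x ∈ prs p a.1, (if s = [] then a.1 else hd s) • g s x v) e1,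
    sum_Q2 p (fun (u : List (Lt p)) i => hd u • G2 u i)
      (fun (s : List (Lt p)) (x : Lt p × Lt p) v =>
        (if s = [] then x.1.1 else hd s) • g s x v) e2,
    sum_Q1_prs p (fun m s x v => (if s = [] then m else hd s) • g s x v),
    ← Finset.sum_filter_add_sum_filter_not (Q2 p p) (fun q => q.2.1.1.1 + q.2.1.2.1 < p)
      (fun q => (if q.1 = [] then q.2.1.1.1 else hd q.1) • g q.1 q.2.1 q.2.2),
    Q2_not_lt, Finset.sum_map]
  have e3 : (Q2 p p).filter (fun q => q.1 = []) =
      ((Q2 p p).filter (fun q => q.2.1.1.1 + q.2.1.2.1 < p)).filter (fun q => q.1 = []) ∪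
        (prs p p).map emb := by
    rw [← Q2_not_lt]
    ext q
    simp only [Finset.mem_union, Finset.mem_filter, mem_Q2]
    constructor
    · rintro ⟨e4, e5⟩
      by_cases e6 : q.2.1.1.1 + q.2.1.2.1 < p
      · exact Or.inl ⟨⟨e4, e6⟩, e5⟩
      · exact Or.inr ⟨e4, e6⟩
    · rintro (⟨⟨e4, e6⟩, e5⟩ | ⟨e4, e6⟩)
      · exact ⟨e4, e5⟩
      · exact ⟨e4, wt_eq_zero (by omega)⟩
  have e4 : Disjoint
      (((Q2 p p).filter (fun q => q.2.1.1.1 + q.2.1.2.1 < p)).filter (fun q => q.1 = []))
      ((prs p p).map emb) := by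
    rw [← Q2_not_lt]
    exact Disjoint.mono_left (Finset.filter_subset _ _) (Finset.disjoint_filter_filter_not _ _ _)
  rw [e3, Finset.sum_union e4, Finset.sum_map, ← sub_sub, ← Finset.sum_sub_distrib]
  have e5 : ∑ q ∈ (Q2 p p).filter (fun q => q.2.1.1.1 + q.2.1.2.1 < p),
      ((if q.1 = [] then q.2.1.1.1 + q.2.1.2.1 else hd q.1) • g q.1 q.2.1 q.2.2 -
        (if q.1 = [] then q.2.1.1.1 else hd q.1) • g q.1 q.2.1 q.2.2) =
      ∑ q ∈ ((Q2 p p).filter (fun q => q.2.1.1.1 + q.2.1.2.1 < p)).filter (fun q => q.1 = []),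
        q.2.1.2.1 • g [] q.2.1 q.2.2 := by
    conv_rhs => rw [Finset.sum_filter]
    apply Finset.sum_congr rfl
    rintro ⟨s, x, v⟩ _
    dsimp only
    by_cases hs : s = []
    · rw [if_pos hs, if_pos hs, if_pos hs, hs, add_smul, add_sub_cancel_left]
    · rw [if_neg hs, if_neg hs, if_neg hs, sub_self]
  rw [e5]
  have e6 : ∑ x ∈ prs p p, p • g [] x [] =
      ∑ x ∈ prs p p, x.1.1 • g [] x [] + ∑ x ∈ prs p p, x.2.1 • g [] x [] := by
    rw [← Finset.sum_add_distrib]
    apply Finset.sum_congr rfl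
    intro x hx
    rw [← add_smul, mem_prs.mp hx]
  rw [e6]
  have e7 : ∀ x : Lt p × Lt p, (if (emb x).1 = [] then (emb x).2.1.1.1 else hd (emb x).1) •
      g (emb x).1 (emb x).2.1 (emb x).2.2 = x.1.1 • g [] x [] := fun x => rfl
  have e8 : ∀ x : Lt p × Lt p, (emb x).2.1.2.1 • g [] (emb x).2.1 (emb x).2.2 =
      x.2.1 • g [] x [] := fun x => rfl
  simp only [e7, e8]
  abel

/-- the wrap part of `b Y` -/
theorem sum_wrap (hp : 0 < p) (g : Lt p × Lt p → List (Lt p) → M) (Wr : List (Lt p) → M)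
    (h : ∀ a b v, Wr (b :: v ++ [a]) = g (a, b) v) :
    ∑ u ∈ cmp p p, hd u • Wr u =
      ∑ q ∈ (Q2 p p).filter (fun q => q.1 = []), q.2.1.2.1 • g q.2.1 q.2.2 := by
  symm
  refine Finset.sum_bij (fun q _ => q.2.1.2 :: q.2.2 ++ [q.2.1.1]) ?_ ?_ ?_ ?_
  · rintro ⟨s, ⟨a, b⟩, v⟩ hq
    simp only [Finset.mem_filter, mem_Q2] at hq
    obtain ⟨hq, rfl⟩ := hq
    simp only [wt_nil] at hq
    simp only [mem_cmp, wt_append, wt_cons, wt_nil]
    omega
  · rintro ⟨s, ⟨a, b⟩, v⟩ hq ⟨s', ⟨a', b'⟩, v'⟩ hq' h1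
    simp only [Finset.mem_filter, mem_Q2] at hq hq'
    obtain ⟨hq, rfl⟩ := hq
    obtain ⟨hq', rfl⟩ := hq'
    simp only [List.cons_append, List.cons.injEq] at h1
    have h2 := List.append_inj' h1.2 rfl
    simp only [List.cons.injEq, and_true] at h2
    rw [h1.1, h2.1, h2.2]
  · intro u hu
    rw [mem_cmp] at hu
    cases u with
    | nil =>
      rw [wt_nil] at hu
      omega
    | cons b u =>
      rcases List.eq_nil_or_concat u with rfl | ⟨v, a, rfl⟩
      · simp only [wt_cons, wt_nil] at hu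
        have := b.2
        omega
      · refine ⟨([], (a, b), v), ?_, ?_⟩
        · simp only [Finset.mem_filter, mem_Q2, and_true, wt_nil]
          simp only [wt_cons, List.concat_eq_append, wt_append, wt_nil] at hu
          omega
        · simp
  · rintro ⟨s, ⟨a, b⟩, v⟩ hq
    dsimp only
    rw [h]
    rfl

theorem wt_rotate (u : List (Lt p)) (i : ℕ) : wt (u.rotate i) = wt u := by
  unfold wt
  rw [List.map_rotate]
  exact (List.rotate_perm _ _).sum_eq

/-- sums over the compositions are invariant under rotations -/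
theorem sum_rot (n : ℕ) (r : ℕ → ℕ) (f : List (Lt p) → M) :
    ∑ u ∈ cmp p n, f (u.rotate (r u.length)) = ∑ u ∈ cmp p n, f u := by
  refine Finset.sum_bij (fun u _ => u.rotate (r u.length)) ?_ ?_ ?_ ?_
  · intro u hu
    rw [mem_cmp, wt_rotate, mem_cmp.mp hu]
  · intro u _ v _ h
    have h1 : u.length = v.length := by
      have := congrArg List.length h
      simpa using this
    rw [h1] at h
    exact List.rotate_injective _ h
  · intro v hv
    refine ⟨v.rotate (v.length - r v.length % v.length), ?_, ?_⟩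
    · rw [mem_cmp, wt_rotate, mem_cmp.mp hv]
    · rw [List.length_rotate, List.rotate_rotate]
      rcases Nat.eq_zero_or_pos v.length with h | h
      · rw [List.length_eq_zero_iff.mp h]
        simp
      · rw [← List.rotate_mod]
        have h2 : (v.length - r v.length % v.length + r v.length) % v.length = 0 := by
          have h3 := Nat.mod_lt (r v.length) h
          have h4 : v.length - r v.length % v.length + r v.length =
              v.length + v.length * (r v.length / v.length) := by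
            have := Nat.mod_add_div (r v.length) v.length
            omega
          rw [h4]
          simp
        rw [h2, List.rotate_zero]
  · intro u _
    rfl

theorem sum_hd_drop (v : List (Lt p)) :
    ∑ j ∈ Finset.range v.length, hd (v.drop j) = wt v := by
  induction v with
  | nil => simp
  | cons a v ih =>
    rw [List.length_cons, Finset.sum_range_succ']
    simp only [List.drop_succ_cons, List.drop_zero, ih, wt_cons]
    rw [add_comm]
    rfl

theorem hd_rotate (v : List (Lt p)) (j : ℕ) (h : j < v.length) :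
    hd (v.rotate j) = hd (v.drop j) := by
  rw [List.rotate_eq_drop_append_take h.le, List.drop_eq_getElem_cons h]
  rfl

theorem sum_hd_rotate (v : List (Lt p)) :
    ∑ i ∈ Finset.range v.length, hd (v.rotate (v.length - i)) = wt v := by
  rw [← sum_hd_drop]
  cases hv : v.length with
  | zero => simp
  | succ m =>
    rw [← Finset.sum_range_reflect, Finset.sum_range_succ,
      Finset.sum_range_succ' (fun j => hd (v.drop j))]
    congr 1
    · apply Finset.sum_congr rfl
      intro j hj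
      rw [Finset.mem_range] at hj
      rw [show m + 1 - (m + 1 - 1 - j) = j + 1 by omega]
      exact hd_rotate v (j + 1) (by omega)
    · rw [show m + 1 - (m + 1 - 1 - m) = v.length by omega, List.rotate_length, List.drop_zero]

/-- `N Y` -/
theorem sum_N (n : ℕ) (f : List (Lt p) → M) :
    ∑ u ∈ cmp p n, hd u • ∑ i ∈ Finset.range u.length, f (u.rotate i) =
      n • ∑ u ∈ cmp p n, f u := by
  have h1 : ∑ u ∈ cmp p n, hd u • ∑ i ∈ Finset.range u.length, f (u.rotate i) =
      ∑ z ∈ (cmp p n).sigma (fun u => Finset.range u.length), hd z.1 • f (z.1.rotate z.2) := by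
    rw [Finset.sum_sigma]
    apply Finset.sum_congr rfl
    intro u _
    rw [Finset.smul_sum]
  have h2 : n • ∑ u ∈ cmp p n, f u =
      ∑ z ∈ (cmp p n).sigma (fun u => Finset.range u.length),
        hd (z.1.rotate (z.1.length - z.2)) • f z.1 := by
    rw [Finset.sum_sigma, Finset.smul_sum]
    apply Finset.sum_congr rfl
    intro u hu
    dsimp only
    rw [← Finset.sum_smul, sum_hd_rotate, mem_cmp.mp hu]
  rw [h1, h2]
  refine Finset.sum_bij (fun z _ => ⟨z.1.rotate z.2, z.2⟩) ?_ ?_ ?_ ?_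
  · rintro ⟨u, i⟩ hz
    simp only [Finset.mem_sigma, mem_cmp, Finset.mem_range] at hz ⊢
    rw [wt_rotate, List.length_rotate]
    exact hz
  · rintro ⟨u, i⟩ _ ⟨v, j⟩ _ h
    simp only [Sigma.mk.injEq, heq_eq_eq] at h
    obtain ⟨h, rfl⟩ := h
    rw [List.rotate_injective _ h]
  · rintro ⟨v, i⟩ hz
    simp only [Finset.mem_sigma, mem_cmp, Finset.mem_range] at hz
    refine ⟨⟨v.rotate (v.length - i), i⟩, ?_, ?_⟩
    · simp only [Finset.mem_sigma, mem_cmp, Finset.mem_range]
      rw [wt_rotate, List.length_rotate]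
      exact hz
    · simp only [Sigma.mk.injEq, heq_eq_eq, and_true]
      rw [List.rotate_rotate, Nat.sub_add_cancel hz.2.le, List.rotate_length]
  · rintro ⟨u, i⟩ hz
    simp only [Finset.mem_sigma, mem_cmp, Finset.mem_range] at hz
    dsimp only
    rw [List.length_rotate, List.rotate_rotate, Nat.add_sub_cancel' hz.2.le, List.rotate_length]

end H8.MC
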