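import Mathlib

/-!
# The universal algebra of a Massey system: the differential on words

Letters: the numbers `0 < n < p`.  The free algebra has the basis of all lists of letters; the
differential of the letter `n` is the sum of the words `[i, j]` with `i + j = n`.
-/

set_option autoImplicit false

noncomputable section

namespace H8.MC

/-- the letters -/
abbrev Lt (p : ℕ) : Type := {n : ℕ // 0 < n ∧ n < p}

instance (p : ℕ) : Fintype (Lt p) :=
  Fintype.ofInjective (fun n : Lt p => (⟨n.1, n.2.2⟩ : Fin p)) (by
    intro a b h
    apply Subtype.ext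
    exact congrArg Fin.val h)

/-- the pairs of letters with given sum -/
def prs (p n : ℕ) : Finset (Lt p × Lt p) :=
  Finset.univ.filter fun x => x.1.1 + x.2.1 = n

theorem mem_prs {p n : ℕ} {x : Lt p × Lt p} : x ∈ prs p n ↔ x.1.1 + x.2.1 = n := by
  simp [prs]

variable (p : ℕ) (R : Type) [CommRing R]

/-- the free module on the words -/
abbrev FW : Type := List (Lt p) →₀ R

variable {p}

/-- the product of words -/
def mulW : FW p R →ₗ[R] FW p R →ₗ[R] FW p R :=
  Finsupp.lsum R fun u => (LinearMap.lsmul R (FW p R →ₗ[R] FW p R)).flip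
    (Finsupp.lmapDomain R R (fun v => u ++ v))

theorem mulW_single (u v : List (Lt p)) (a b : R) :
    mulW R (Finsupp.single u a) (Finsupp.single v b) = Finsupp.single (u ++ v) (a * b) := by
  simp [mulW, Finsupp.mapDomain_single]

theorem mulW_one (x : FW p R) : mulW R x (Finsupp.single [] 1) = x := by
  induction x using Finsupp.induction_linear with
  | zero => simp
  | add a b ha hb => rw [map_add, LinearMap.add_apply, ha, hb]
  | single u a => rw [mulW_single, List.append_nil, mul_one]

theorem one_mulW (x : FW p R) : mulW R (Finsupp.single [] 1) x = x := by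
  induction x using Finsupp.induction_linear with
  | zero => simp
  | add a b ha hb => rw [map_add, ha, hb]
  | single u a => rw [mulW_single, List.nil_append, one_mul]

theorem mulW_assoc (x y z : FW p R) : mulW R (mulW R x y) z = mulW R x (mulW R y z) := by
  induction x using Finsupp.induction_linear with
  | zero => simp
  | add a b ha hb => simp only [map_add, LinearMap.add_apply, ha, hb]
  | single u a =>
    induction y using Finsupp.induction_linear with
    | zero => simp
    | add a b ha hb => simp only [map_add, LinearMap.add_apply, ha, hb]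
    | single v b =>
      induction z using Finsupp.induction_linear with
      | zero => simp
      | add a b ha hb => simp only [map_add, ha, hb]
      | single w c => simp only [mulW_single, List.append_assoc, mul_assoc]

/-- the differential of a word -/
def dW : List (Lt p) → FW p R
  | [] => 0
  | n :: u => ∑ x ∈ prs p n.1, Finsupp.single (x.1 :: x.2 :: u) 1 -
      mulW R (Finsupp.single [n] 1) (dW u)

/-- the differential -/
def dF : FW p R →ₗ[R] FW p R :=
  Finsupp.lsum R fun u => (LinearMap.lsmul R (FW p R)).flip (dW R u)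

theorem dF_single (u : List (Lt p)) (a : R) : dF R (Finsupp.single u a) = a • dW R u := by
  simp [dF]

/-- the differential of a product of words -/
theorem dW_append (u v : List (Lt p)) :
    dW R (u ++ v) = mulW R (dW R u) (Finsupp.single v 1) +
      ((-1 : R) ^ u.length) • mulW R (Finsupp.single u 1) (dW R v) := by
  induction u with
  | nil => simp [dW, one_mulW]
  | cons n u ih =>
    rw [List.cons_append, dW, ih, dW, map_sub, LinearMap.sub_apply, map_sum,
      LinearMap.sum_apply, map_add, map_smul, ← mulW_assoc, ← mulW_assoc, mulW_single, mul_one]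
    have h1 : ∀ x ∈ prs p n.1, mulW R (Finsupp.single (x.1 :: x.2 :: u) 1)
        (Finsupp.single v 1) = Finsupp.single (x.1 :: x.2 :: (u ++ v)) (1 : R) := by
      intro x _
      rw [mulW_single, mul_one]
      rfl
    rw [Finset.sum_congr rfl h1, List.length_cons, pow_succ]
    simp only [List.singleton_append, mul_neg, mul_one, neg_smul]
    abel

/-- Leibniz rule, left factor a word -/
theorem dF_mul (u : List (Lt p)) (y : FW p R) :
    dF R (mulW R (Finsupp.single u 1) y) = mulW R (dW R u) y +
      ((-1 : R) ^ u.length) • mulW R (Finsupp.single u 1) (dF R y) := by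
  induction y using Finsupp.induction_linear with
  | zero => simp
  | add a b ha hb =>
    rw [map_add, map_add, ha, hb, map_add, map_add, map_add, smul_add]
    abel
  | single v b =>
    rw [mulW_single, one_mul, dF_single, dF_single, dW_append, smul_add]
    have h1 : (Finsupp.single v b : FW p R) = b • Finsupp.single v 1 := by
      rw [Finsupp.smul_single, smul_eq_mul, mul_one]
    rw [h1, map_smul, map_smul, smul_comm b]

/-- reindexing of the sums over three letters -/
theorem prs_assoc {M : Type*} [AddCommMonoid M] (n : ℕ) (hn : n ≤ p) (f : Lt p → Lt p → Lt p → M) :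
    ∑ x ∈ prs p n, ∑ y ∈ prs p x.1.1, f y.1 y.2 x.2 =
      ∑ x ∈ prs p n, ∑ y ∈ prs p x.2.1, f x.1 y.1 y.2 := by
  rw [Finset.sum_sigma', Finset.sum_sigma']
  refine Finset.sum_bij'
    (fun z hz => ⟨(z.2.1, ⟨z.2.2.1 + z.1.2.1, ?_⟩), (z.2.2, z.1.2)⟩)
    (fun z hz => ⟨(⟨z.1.1.1 + z.2.1.1, ?_⟩, z.2.2), (z.1.1, z.2.1)⟩) ?_ ?_ ?_ ?_ ?_
  · simp only [Finset.mem_sigma, mem_prs] at hz
    have h1 := z.2.1.2
    have h2 := z.2.2.2
    have h3 := z.1.2.2
    omega
  · simp only [Finset.mem_sigma, mem_prs] at hz
    have h1 := z.2.1.2
    have h2 := z.2.2.2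
    have h3 := z.1.1.2
    omega
  · intro z hz
    simp only [Finset.mem_sigma, mem_prs] at hz ⊢
    constructor
    · omega
    · trivial
  · intro z hz
    simp only [Finset.mem_sigma, mem_prs] at hz ⊢
    constructor
    · omega
    · trivial
  · rintro ⟨⟨a, b⟩, c, d⟩ hz
    simp only [Finset.mem_sigma, mem_prs] at hz
    have : (⟨c.1 + d.1, by have := a.2; omega⟩ : Lt p) = a := Subtype.ext hz.2
    simp [this]
  · rintro ⟨⟨a, b⟩, c, d⟩ hz
    simp only [Finset.mem_sigma, mem_prs] at hz
    have : (⟨c.1 + d.1, by have := b.2; omega⟩ : Lt p) = b := Subtype.ext hz.2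
    simp [this]
  · intro z hz
    rfl

theorem dF_dW (u : List (Lt p)) : dF R (dW R u) = 0 := by
  induction u with
  | nil => simp [dW]
  | cons n u ih =>
    rw [dW, map_sub, dF_mul, ih, map_zero, smul_zero, add_zero, map_sum]
    have h1 : ∀ x ∈ prs p n.1, dF R (Finsupp.single (x.1 :: x.2 :: u) (1 : R)) =
        mulW R (dW R [x.1, x.2]) (Finsupp.single u 1) +
          mulW R (Finsupp.single [x.1, x.2] 1) (dW R u) := by
      intro x _
      rw [dF_single, one_smul, show x.1 :: x.2 :: u = [x.1, x.2] ++ u from rfl, dW_append]
      simp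
    have h2 : mulW R (dW R [n]) (dW R u) =
        ∑ x ∈ prs p n.1, mulW R (Finsupp.single [x.1, x.2] (1 : R)) (dW R u) := by
      simp [dW, map_sum, LinearMap.sum_apply]
    have h3 : ∑ x ∈ prs p n.1, dW R [x.1, x.2] = 0 := by
      have h4 : ∀ x ∈ prs p n.1, dW R [x.1, x.2] =
          (∑ y ∈ prs p x.1.1, Finsupp.single [y.1, y.2, x.2] (1 : R)) -
            ∑ y ∈ prs p x.2.1, Finsupp.single [x.1, y.1, y.2] (1 : R) := by
        intro x _
        simp only [dW, map_zero, sub_zero, map_sum]
        congr 1
        apply Finset.sum_congr rfl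
        intro y _
        rw [mulW_single, mul_one]
        rfl
      rw [Finset.sum_congr rfl h4, Finset.sum_sub_distrib,
        prs_assoc n.1 n.2.2.le (fun a b c => Finsupp.single [a, b, c] (1 : R)), sub_self]
    rw [Finset.sum_congr rfl h1, Finset.sum_add_distrib, h2, add_sub_cancel_right]
    have h5 : ∑ x ∈ prs p n.1, mulW R (dW R [x.1, x.2]) (Finsupp.single u (1 : R)) =
        mulW R (∑ x ∈ prs p n.1, dW R [x.1, x.2]) (Finsupp.single u 1) := by
      rw [map_sum, LinearMap.sum_apply]
    rw [h5, h3, map_zero, LinearMap.zero_apply]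

theorem dF_dF (x : FW p R) : dF R (dF R x) = 0 := by
  induction x using Finsupp.induction_linear with
  | zero => simp
  | add a b ha hb => rw [map_add, map_add, ha, hb, add_zero]
  | single u a => rw [dF_single, map_smul, dF_dW, smul_zero]

end H8.MC
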