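import Pool.Agent.H8.MC.Lift
import Pool.Agent.H8.MC.Cmp

/-!
# The identity `D Y = p P` in the universal algebra
-/

set_option autoImplicit false

noncomputable section

namespace H8.MC

open NC NC.BK

variable (p : ℕ) (R : Type) [CommRing R]

/-- the word of one letter words -/
def io {p : ℕ} (u : List (Lt p)) : List (List (Lt p)) := u.map (fun a => [a])

@[simp] theorem io_nil {p : ℕ} : io ([] : List (Lt p)) = [] := rfl
@[simp] theorem io_cons {p : ℕ} (a : Lt p) (u : List (Lt p)) : io (a :: u) = [a] :: io u := rfl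
@[simp] theorem io_append {p : ℕ} (u v : List (Lt p)) : io (u ++ v) = io u ++ io v := by
  simp [io]
@[simp] theorem io_length {p : ℕ} (u : List (Lt p)) : (io u).length = u.length := by simp [io]

theorem io_rotate {p : ℕ} (u : List (Lt p)) (i : ℕ) : io (u.rotate i) = (io u).rotate i := by
  simp [io, List.map_rotate]

/-- the marked words -/
def mk2 {p : ℕ} (s : List (Lt p)) (x : Lt p × Lt p) (v : List (Lt p)) : W R (List (Lt p)) :=
  Finsupp.single (io s ++ [x.1, x.2] :: io v) 1

theorem sdg_io {p : ℕ} (u : List (Lt p)) : sdg (sc p R).deg (io u) = 0 := by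
  induction u with
  | nil => rfl
  | cons a u ih =>
    rw [sdg, io_cons, List.map_cons, List.sum_cons]
    change (([a] : List (Lt p)).length : ℤ) - 1 + sdg (sc p R).deg (io u) = 0
    rw [ih]
    simp

theorem sg_zero (S : Type) [CommRing S] : BK.sg S 0 = 1 := by simp [BK.sg]

theorem take_io {p : ℕ} (u : List (Lt p)) (i : ℕ) : (io u).take i = io (u.take i) := by
  simp [io, List.map_take]

theorem drop_io {p : ℕ} (u : List (Lt p)) (i : ℕ) : (io u).drop i = io (u.drop i) := by
  simp [io, List.map_drop]

theorem rotw_io {p : ℕ} (u : List (Lt p)) (i : ℕ) (h : i ≤ u.length) :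
    rotw R (sc p R).deg i (io u) = Finsupp.single (io (u.rotate i)) 1 := by
  rw [rotw, take_io, drop_io, sdg_io, sdg_io, mul_zero, sg_zero, ← io_append,
    List.rotate_eq_drop_append_take h]

theorem blk1_io {p : ℕ} (s : List (Lt p)) (a : Lt p) (v : List (Lt p)) :
    blk (sc p R).deg 1 1 (sc p R).c1 s.length (io (s ++ a :: v)) =
      ∑ x ∈ prs p a.1, mk2 R s x v := by
  rw [blk, take_io, drop_io, drop_io, List.take_left, sdg_io, mul_zero, sg_zero, one_smul,
    List.drop_left, List.drop_append]
  simp only [List.drop_of_length_le (Nat.le_add_right s.length 1), List.nil_append,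
    Nat.add_sub_cancel_left, List.drop_succ_cons, List.drop_zero, io_cons, List.take_succ_cons,
    List.take_zero]
  change ins (io s) (io v) (dW R [a]) = _
  rw [dW, dW, map_zero, sub_zero, map_sum]
  apply Finset.sum_congr rfl
  intro x _
  rw [ins, Finsupp.lmapDomain_apply, Finsupp.mapDomain_single]
  rfl

theorem blk2_io {p : ℕ} (s : List (Lt p)) (a b : Lt p) (v : List (Lt p)) :
    blk (sc p R).deg 1 2 (sc p R).c2 s.length (io (s ++ a :: b :: v)) =
      - mk2 R s (a, b) v := by
  rw [blk, take_io, drop_io, drop_io, List.take_left, sdg_io, mul_zero, sg_zero, one_smul,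
    List.drop_left, List.drop_append]
  simp only [List.drop_of_length_le (Nat.le_add_right s.length 2), List.nil_append,
    Nat.add_sub_cancel_left, List.drop_succ_cons, List.drop_zero, io_cons, List.take_succ_cons,
    List.take_zero]
  change ins (io s) (io v) (BK.sg R ((([a] : List (Lt p)).length : ℤ)) •
    Finsupp.single [a, b] 1) = _
  rw [sg_nat, map_smul, ins, Finsupp.lmapDomain_apply, Finsupp.mapDomain_single]
  simp [mk2]

theorem blk2_last {p : ℕ} (u : List (Lt p)) (i : ℕ) (h : ¬ i < u.length - 1) :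
    blk (sc p R).deg 1 2 (sc p R).c2 i (io u) = 0 := by
  have h1 : (((io u).drop i).take 2).length < 2 := by
    rw [List.length_take, List.length_drop, io_length]
    omega
  have h2 : (sc p R).c2 (((io u).drop i).take 2) = 0 := by
    generalize ((io u).drop i).take 2 = w at h1
    match w, h1 with
    | [], _ => rfl
    | [_], _ => rfl
    | _ :: _ :: _, h => simp at h
  rw [blk, h2, map_zero, smul_zero]

theorem opB'_io {p : ℕ} (u : List (Lt p)) :
    (sc p R).opB' (Finsupp.single (io u) 1) =
      ∑ i ∈ Finset.range u.length, blk (sc p R).deg 1 1 (sc p R).c1 i (io u) -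
        ∑ i ∈ Finset.range (u.length - 1), - blk (sc p R).deg 1 2 (sc p R).c2 i (io u) := by
  rw [Sc.opB', lin, Finsupp.linearCombination_single, one_smul, io_length,
    Finset.sum_add_distrib, Finset.sum_neg_distrib, sub_neg_eq_add]
  congr 1
  cases hu : u.length with
  | zero => simp
  | succ m =>
    rw [Finset.sum_range_succ, blk2_last R u m (by omega), add_zero, Nat.add_sub_cancel]

theorem wrap_io {p : ℕ} (b a : Lt p) (v : List (Lt p)) :
    lin (fun w => blk (sc p R).deg 1 2 (sc p R).c2 0 w)
      (tt R (sc p R).deg (Finsupp.single (io (b :: v ++ [a])) 1)) = - mk2 R [] (a, b) v := by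
  rw [tt, lin, lin, Finsupp.linearCombination_single, one_smul, io_length, rotw_io _ _ _ (by omega),
    Finsupp.linearCombination_single, one_smul]
  have h1 : (b :: v ++ [a]).rotate ((b :: v ++ [a]).length - 1) = a :: b :: v := by
    rw [List.length_append, List.length_singleton, Nat.add_sub_cancel, List.rotate_append_length_eq]
    rfl
  rw [h1]
  exact blk2_io R [] a b v

/-- the chain `Y` -/
def Yc : ℤ → W R (List (Lt p)) := fun q =>
  if q = 0 then - ∑ u ∈ cmp p p, hd u • Finsupp.single (io u) 1 else 0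

/-- the chain `P` -/
def Pc : ℤ → W R (List (Lt p)) := fun q =>
  if q = 0 then ∑ x ∈ prs p p, mk2 R [] x []
  else if q = -1 then - ∑ u ∈ cmp p p, Finsupp.single (io u) 1 else 0

theorem opB_Y (hp : 0 < p) :
    (sc p R).opB (∑ u ∈ cmp p p, hd u • Finsupp.single (io u) 1) =
      - ((p : R) • ∑ x ∈ prs p p, mk2 R [] x []) := by
  have h1 : ∀ u : List (Lt p), (sc p R).opB (hd u • Finsupp.single (io u) 1) =
      hd u • (∑ i ∈ Finset.range u.length, blk (sc p R).deg 1 1 (sc p R).c1 i (io u) -
        ∑ i ∈ Finset.range (u.length - 1), - blk (sc p R).deg 1 2 (sc p R).c2 i (io u)) -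
      hd u • (- lin (fun w => blk (sc p R).deg 1 2 (sc p R).c2 0 w)
        (tt R (sc p R).deg (Finsupp.single (io u) 1))) := by
    intro u
    rw [map_nsmul, Sc.opB, LinearMap.add_apply, opB'_io, smul_add, smul_neg, sub_neg_eq_add]
    rfl
  rw [map_sum, Finset.sum_congr rfl (fun u _ => h1 u), Finset.sum_sub_distrib,
    sum_bp_hd (fun s x v => mk2 R s x v)
      (fun u i => blk (sc p R).deg 1 1 (sc p R).c1 i (io u))
      (fun u i => - blk (sc p R).deg 1 2 (sc p R).c2 i (io u))
      (fun s a v => blk1_io R s a v) (fun s a b v => by rw [blk2_io, neg_neg]),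
    sum_wrap hp (fun x v => mk2 R [] x v)
      (fun u => - lin (fun w => blk (sc p R).deg 1 2 (sc p R).c2 0 w)
        (tt R (sc p R).deg (Finsupp.single (io u) 1)))
      (fun a b v => by rw [wrap_io, neg_neg]), sub_sub_cancel_left]
  rw [Nat.cast_smul_eq_nsmul]

theorem opB'_W :
    (sc p R).opB' (∑ u ∈ cmp p p, Finsupp.single (io u) 1) = - ∑ x ∈ prs p p, mk2 R [] x [] := by
  rw [map_sum, Finset.sum_congr rfl (fun u _ => opB'_io R u),
    sum_bp (fun s x v => mk2 R s x v)
      (fun u i => blk (sc p R).deg 1 1 (sc p R).c1 i (io u))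
      (fun u i => - blk (sc p R).deg 1 2 (sc p R).c2 i (io u))
      (fun s a v => blk1_io R s a v) (fun s a b v => by rw [blk2_io, neg_neg])]

theorem nn_Y : nn R (sc p R).deg (∑ u ∈ cmp p p, hd u • Finsupp.single (io u) 1) =
    (p : R) • ∑ u ∈ cmp p p, Finsupp.single (io u) 1 := by
  have h1 : ∀ u : List (Lt p), nn R (sc p R).deg (hd u • Finsupp.single (io u) 1) =
      hd u • ∑ i ∈ Finset.range u.length, Finsupp.single (io (u.rotate i)) (1 : R) := by
    intro u
    rw [map_nsmul, nn, lin, Finsupp.linearCombination_single, one_smul, io_length]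
    congr 1
    apply Finset.sum_congr rfl
    intro i hi
    rw [rotw_io _ _ _ (Finset.mem_range.mp hi).le]
  rw [map_sum, Finset.sum_congr rfl (fun u _ => h1 u),
    sum_N p (fun u => Finsupp.single (io u) (1 : R)), Nat.cast_smul_eq_nsmul]

theorem tt_W : tt R (sc p R).deg (∑ u ∈ cmp p p, Finsupp.single (io u) 1) =
    ∑ u ∈ cmp p p, Finsupp.single (io u) 1 := by
  have h1 : ∀ u : List (Lt p), tt R (sc p R).deg (Finsupp.single (io u) 1) =
      Finsupp.single (io (u.rotate (u.length - 1))) (1 : R) := by
    intro u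
    rw [tt, lin, Finsupp.linearCombination_single, one_smul, io_length,
      rotw_io _ _ _ (by omega)]
  rw [map_sum, Finset.sum_congr rfl (fun u _ => h1 u)]
  exact sum_rot p (fun n => n - 1) (fun u => Finsupp.single (io u) (1 : R))

theorem nn_letter (x : Lt p × Lt p) : nn R (sc p R).deg (mk2 R [] x []) = mk2 R [] x [] := by
  rw [mk2, nn, lin, Finsupp.linearCombination_single, one_smul]
  simp [rotw, sdg, sg_zero]

/-- `D Y = p P` -/
theorem D_Y (hp : 0 < p) : (sc p R).D (Yc p R) = (p : R) • Pc p R := by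
  funext q
  change (if Even q then (sc p R).opB (Yc p R q) + (Yc p R (q + 1) -
    tt R (sc p R).deg (Yc p R (q + 1))) else nn R (sc p R).deg (Yc p R (q + 1)) -
      (sc p R).opB' (Yc p R q)) = (p : R) • Pc p R q
  split_ifs with h
  · have h1 : q + 1 ≠ 0 := by
      rintro h1
      have : q = -1 := by omega
      subst this
      exact absurd h (by decide)
    rw [Yc, Yc, if_neg h1, map_zero, sub_zero, add_zero]
    split_ifs with h2
    · rw [map_neg, opB_Y p R hp, neg_neg, Pc, if_pos h2]
    · rw [map_zero, Pc, if_neg h2, if_neg, smul_zero]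
      rintro rfl
      exact h1 rfl
  · have h1 : q ≠ 0 := by
      rintro rfl
      exact h (by simp)
    rw [Yc, Yc, if_neg h1, map_zero, sub_zero]
    split_ifs with h2
    · rw [map_neg, nn_Y, Pc, if_neg h1, if_pos (by omega), smul_neg]
    · rw [map_zero, Pc, if_neg h1, if_neg (by omega), smul_zero]

theorem sum_dW_pair : ∑ x ∈ prs p p, dW R [x.1, x.2] = 0 := by
  have h4 : ∀ x ∈ prs p p, dW R [x.1, x.2] =
      (∑ y ∈ prs p x.1.1, Finsupp.single [y.1, y.2, x.2] (1 : R)) -
        ∑ y ∈ prs p x.2.1, Finsupp.single [x.1, y.1, y.2] (1 : R) := by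
    intro x _
    simp only [dW, map_zero, sub_zero, map_sum]
    congr 1
    apply Finset.sum_congr rfl
    intro y _
    rw [mulW_single, mul_one]
    rfl
  rw [Finset.sum_congr rfl h4, Finset.sum_sub_distrib,
    prs_assoc p le_rfl (fun a b c => Finsupp.single [a, b, c] (1 : R)), sub_self]

theorem opB_letter (x : Lt p × Lt p) :
    (sc p R).opB (mk2 R [] x []) = ins [] [] (dW R [x.1, x.2]) := by
  have h1 : blk (sc p R).deg 1 2 (sc p R).c2 0 [[x.1, x.2]] = 0 := by
    rw [blk]
    change BK.sg R _ • ins _ _ (0 : List (Lt p) →₀ R) = 0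
    rw [map_zero, smul_zero]
  have h2 : blk (sc p R).deg 1 1 (sc p R).c1 0 [[x.1, x.2]] = ins [] [] (dW R [x.1, x.2]) := by
    rw [blk]
    change BK.sg R (1 * 0) • ins _ _ (dW R [x.1, x.2]) = _
    rw [mul_zero, sg_zero, one_smul]
    rfl
  have h3 : tt R (sc p R).deg (mk2 R [] x []) = Finsupp.single [[x.1, x.2]] 1 := by
    rw [mk2, tt, lin, Finsupp.linearCombination_single, one_smul]
    simp [rotw, sdg, sg_zero]
  rw [Sc.opB, LinearMap.add_apply, LinearMap.comp_apply, h3, lin,
    Finsupp.linearCombination_single, one_smul, h1, add_zero, mk2, Sc.opB', lin,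
    Finsupp.linearCombination_single, one_smul]
  change ∑ i ∈ Finset.range 1, (blk (sc p R).deg 1 1 (sc p R).c1 i [[x.1, x.2]] +
    blk (sc p R).deg 1 2 (sc p R).c2 i [[x.1, x.2]]) = _
  rw [Finset.sum_range_one, h1, h2, add_zero]

theorem dd_pair : (sc p R).opB (∑ x ∈ prs p p, mk2 R [] x []) = 0 := by
  rw [map_sum, Finset.sum_congr rfl (fun x _ => opB_letter p R x), ← map_sum, sum_dW_pair,
    map_zero]

/-- `D P = 0` -/
theorem D_P : (sc p R).D (Pc p R) = 0 := by
  funext q
  change (if Even q then (sc p R).opB (Pc p R q) + (Pc p R (q + 1) -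
    tt R (sc p R).deg (Pc p R (q + 1))) else nn R (sc p R).deg (Pc p R (q + 1)) -
      (sc p R).opB' (Pc p R q)) = 0
  split_ifs with h
  · have h1 : q + 1 ≠ 0 := by
      rintro h1
      have : q = -1 := by omega
      subst this
      exact absurd h (by decide)
    have h3 : q ≠ -1 := by
      rintro rfl
      exact h1 rfl
    by_cases h2 : q = 0
    · subst h2
      rw [Pc, if_pos rfl, dd_pair, zero_add, Pc, if_neg (by decide), if_neg (by decide),
        map_zero, sub_zero]
    · rw [Pc, if_neg h2, if_neg h3, map_zero, zero_add, Pc, if_neg h1]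
      split_ifs
      · rw [map_neg, tt_W, sub_self]
      · rw [map_zero, sub_zero]
  · have h1 : q ≠ 0 := by
      rintro rfl
      exact h (by simp)
    by_cases h2 : q = -1
    · subst h2
      rw [show (-1 : ℤ) + 1 = 0 from rfl, Pc, if_pos rfl, Pc, if_neg h1, if_pos rfl, map_neg,
        opB'_W, neg_neg, map_sum, Finset.sum_congr rfl (fun x _ => nn_letter p R x), sub_self]
    · have h3 : q + 1 ≠ 0 := by omega
      have h4 : q + 1 ≠ -1 := by
        rintro h4
        have : q = -2 := by omega
        subst this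
        exact h (by decide)
      rw [Pc, if_neg h3, if_neg h4, map_zero, Pc, if_neg h1, if_neg h2, map_zero, sub_zero]

end H8.MC
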