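import Pool.Agent.H8.MC.Alg
import Pool.Agent.H94.BK.Defs

/-!
# The strict lift of the universal algebra
-/

set_option autoImplicit false

noncomputable section

namespace H8.MC

open NC NC.BK

variable (p : ℕ)

theorem dW_len (S : Type) [CommRing S] (u v : List (Lt p)) (h : dW S u v ≠ 0) :
    v.length = u.length + 1 := by
  induction u generalizing v with
  | nil => exact absurd rfl h
  | cons n u ih =>
    rw [dW, Finsupp.sub_apply, Finsupp.finsetSum_apply] at h
    by_cases h1 : ∑ x ∈ prs p n.1, (Finsupp.single (x.1 :: x.2 :: u) (1 : S)) v = 0
    · rw [h1, zero_sub, neg_ne_zero] at h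
      have h2 : mulW S (Finsupp.single [n] 1) (dW S u) =
          (dW S u).mapDomain (fun v => [n] ++ v) := by
        simp [mulW]
      rw [h2] at h
      by_contra h3
      refine h ?_
      rw [Finsupp.mapDomain]
      rw [Finsupp.sum_apply, Finsupp.sum]
      refine Finset.sum_eq_zero fun w hw => ?_
      rw [Finsupp.single_apply, if_neg]
      rintro rfl
      have := ih w (Finsupp.mem_support_iff.mp hw)
      simp only [List.length_append, List.length_cons, List.length_nil] at h3
      omega
    · obtain ⟨x, _, hx⟩ := Finset.exists_ne_zero_of_sum_ne_zero h1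
      rw [Finsupp.single_apply] at hx
      split_ifs at hx with h2
      · rw [← h2]
        simp
      · exact absurd rfl hx

/-- the structure constants of the universal algebra -/
def sc (S : Type) [CommRing S] : Sc S (List (Lt p)) where
  deg := fun u => (u.length : ℤ)
  d := dW S
  m := fun u v => Finsupp.single (u ++ v) 1
  d_deg := fun a b h => by
    rw [dW_len p S a b h]
    push_cast
    ring
  m_deg := fun a b c h => by
    rw [Finsupp.single_apply] at h
    split_ifs at h with h2
    · rw [← h2, List.length_append]
      push_cast
      ring
    · exact absurd rfl h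

theorem sc_dL (S : Type) [CommRing S] (x : List (Lt p) →₀ S) : (sc p S).dL x = dF S x := by
  induction x using Finsupp.induction_linear with
  | zero => simp
  | add a b ha hb => rw [map_add, map_add, ha, hb]
  | single u a =>
    rw [dF_single]
    simp [Sc.dL, sc]

theorem sc_mL (S : Type) [CommRing S] (x y : List (Lt p) →₀ S) :
    (sc p S).mL x y = mulW S x y := by
  induction x using Finsupp.induction_linear with
  | zero => simp
  | add a b ha hb => rw [map_add, map_add, LinearMap.add_apply, ha, hb, LinearMap.add_apply]
  | single u a =>
    induction y using Finsupp.induction_linear with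
    | zero => simp
    | add a b ha hb => rw [map_add, map_add, ha, hb]
    | single v b =>
      rw [mulW_single]
      simp [Sc.mL, sc]

theorem sg_nat (S : Type) [CommRing S] (n : ℕ) : BK.sg S (n : ℤ) = (-1) ^ n := by
  rw [BK.sg, Int.negOnePow_def]
  simp

theorem sc_strict (S : Type) [CommRing S] : (sc p S).Strict where
  dd := fun a => by
    rw [sc_dL]
    exact dF_dW S a
  leib := fun a b => by
    rw [sc_dL, sc_mL, sc_mL]
    change dF S (Finsupp.single (a ++ b) 1) = mulW S (dW S a) (Finsupp.single b 1) +
      BK.sg S (a.length : ℤ) • mulW S (Finsupp.single a 1) (dW S b)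
    rw [dF_single, one_smul, dW_append, sg_nat]
  assoc := fun a b c => by
    rw [sc_mL, sc_mL]
    change mulW S (Finsupp.single (a ++ b) 1) _ = mulW S _ (Finsupp.single (b ++ c) 1)
    rw [mulW_single, mulW_single, List.append_assoc]

variable {k R : Type} [Field k] [CommRing R] (c : Car p k R)

theorem red_single {I : Type} (i : I) (r : R) :
    red c (Finsupp.single i r) = Finsupp.single i (c.π r) := by
  rw [red, Finsupp.mapRange_single]

theorem red_sub {I : Type} (x y : I →₀ R) : red c (x - y) = red c x - red c y := by
  ext i
  simp [red]

theorem red_sum {I J : Type} (s : Finset J) (x : J → I →₀ R) :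
    red c (∑ j ∈ s, x j) = ∑ j ∈ s, red c (x j) := by
  ext i
  simp [red]

theorem red_mulW (n : Lt p) (y : FW p R) :
    red c (mulW R (Finsupp.single [n] 1) y) = mulW k (Finsupp.single [n] 1) (red c y) := by
  induction y using Finsupp.induction_linear with
  | zero => simp [red]
  | add a b ha hb =>
    have h : ∀ x y : FW p R, red c (x + y) = red c x + red c y := fun x y => by
      ext i
      simp [red]
    rw [map_add, h, ha, hb, h, map_add]
  | single v b => rw [mulW_single, red_single, red_single, mulW_single, one_mul, one_mul]

theorem red_dW (u : List (Lt p)) : red c (dW R u) = dW k u := by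
  induction u with
  | nil => simp [dW, red]
  | cons n u ih =>
    rw [dW, dW, red_sub, red_sum, red_mulW, ih]
    congr 1
    apply Finset.sum_congr rfl
    intro x _
    rw [red_single, map_one]

/-- the lift of the universal algebra -/
def lft : Lft c (C k p) where
  B := List (Lt p)
  e := Finsupp.basisSingleOne
  sc := sc p R
  e_gr := fun b => by
    have h := single_mem_grF k b (1 : k)
    change (Finsupp.basisSingleOne b : FW p k) ∈ grF k (b.length : ℤ)
    rw [Finsupp.coe_basisSingleOne]
    exact h
  e_D := fun a => by
    change Finsupp.basisSingleOne.repr (dF k (Finsupp.basisSingleOne a)) = red c (dW R a)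
    rw [Finsupp.coe_basisSingleOne, dF_single, one_smul, red_dW]
    rfl
  e_mul := fun a b => by
    change Finsupp.basisSingleOne.repr (mulW k (Finsupp.basisSingleOne a)
      (Finsupp.basisSingleOne b)) = red c (Finsupp.single (a ++ b) 1)
    rw [Finsupp.coe_basisSingleOne, mulW_single, red_single, map_one, one_mul]
    rfl

end H8.MC
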